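import Pool.Agent.E8helper34.MC.Tw

set_option autoImplicit false

/-! The relation `(t_0 t_1 t_2)^4 = e ι e ι`. -/

namespace Pool.Agent.E8helper34.MC

open Pool.Agent.H29R2.MG Pool.Agent.TH35.MG Pool.Agent.R352.MG Pool.Agent.R665.MGR

section
variable {g : ℕ}

/-- the product `t_0 t_1 t_2` -/
def T3 (g : ℕ) (hg : 2 ≤ g) : MulAut (SurfaceGroup g) :=
  tw g 0 * sv ⟨1, by omega⟩ * sv ⟨2, by omega⟩

theorem T3_0 (hg : 2 ≤ g) : T3 g hg (YY g 0) = (YY g 0)⁻¹ * (YY g 1)⁻¹ := by
  have h2 : QQ (YY g) (2 * 0 + 1) = YY g 0 := mul_one _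
  unfold T3
  rw [MulAut.mul_apply, MulAut.mul_apply, sv_YY (by omega) (by omega), if_neg (by omega),
    if_neg (by omega), sv_YY (by omega) (by omega), if_pos (by omega), map_inv, tw_YY,
    if_neg (by omega), if_neg (by omega), h2]
  group

theorem T3_1 (hg : 2 ≤ g) : T3 g hg (YY g 1) = (YY g 2)⁻¹ * YY g 0 := by
  have h2 : QQ (YY g) (2 * 0 + 1) = YY g 0 := mul_one _
  unfold T3
  rw [MulAut.mul_apply, MulAut.mul_apply, sv_YY (by omega) (by omega), if_pos (by omega),
    map_inv, sv_YY (by omega) (by omega), if_neg (by omega), if_neg (by omega), map_inv, tw_YY,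
    if_neg (by omega), if_pos (by omega), h2]
  group

theorem T3_2 (hg : 2 ≤ g) : T3 g hg (YY g 2) =
    (YY g 0)⁻¹ * YY g 2 * YY g 1 * YY g 0 * YY g 0 * YY g 1 * YY g 2 := by
  have h2 : QQ (YY g) (2 * 0 + 1) = YY g 0 := mul_one _
  unfold T3
  rw [MulAut.mul_apply, MulAut.mul_apply, sv_YY (by omega) (by omega), if_neg (by omega),
    if_pos rfl, show (2 : ℕ) - 1 = 1 from rfl]
  simp only [map_mul]
  rw [sv_YY (j := 1) (by omega) (by omega) 2, if_neg (by omega), if_neg (by omega),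
    sv_YY (j := 1) (by omega) (by omega) 1, if_neg (by omega), if_pos rfl,
    show (1 : ℕ) - 1 = 0 from rfl]
  simp only [map_mul]
  rw [tw_YY 2, if_neg (by omega), if_pos (by omega), tw_YY 1, if_neg (by omega),
    if_neg (by omega), tw_YY 0, if_pos (by omega), h2]
  group

theorem T3_odd (hg : 2 ≤ g) {k : ℕ} (hk : 3 ≤ k) (h : k % 2 = 1) :
    T3 g hg (YY g k) = YY g k * YY g 0 := by
  have h2 : QQ (YY g) (2 * 0 + 1) = YY g 0 := mul_one _
  unfold T3
  rw [MulAut.mul_apply, MulAut.mul_apply, sv_YY (by omega) (by omega), if_neg (by omega),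
    if_neg (by omega), sv_YY (by omega) (by omega), if_neg (by omega), if_neg (by omega), tw_YY,
    if_neg (by omega), if_neg (by omega), h2]

theorem T3_even (hg : 2 ≤ g) {k : ℕ} (hk : 3 ≤ k) (h : k % 2 = 0) :
    T3 g hg (YY g k) = (YY g 0)⁻¹ * YY g k := by
  have h2 : QQ (YY g) (2 * 0 + 1) = YY g 0 := mul_one _
  unfold T3
  rw [MulAut.mul_apply, MulAut.mul_apply, sv_YY (by omega) (by omega), if_neg (by omega),
    if_neg (by omega), sv_YY (by omega) (by omega), if_neg (by omega), if_neg (by omega), tw_YY,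
    if_neg (by omega), if_pos (by omega), h2]

theorem four (hg : 2 ≤ g) : T3 g hg * T3 g hg * (T3 g hg * T3 g hg) =
    MulAut.conj (PQ (YY g) 3)⁻¹ * (tw g 1 * (iota g * tw g 1 * iota g)) := by
  have hQ : QQ (YY g) (2 * 1 + 1) = YY g 2 * (YY g 1 * (YY g 0 * 1)) := rfl
  have hP : PQ (YY g) 3 = 1 * YY g 0 * YY g 1 * YY g 2 := rfl
  have hP' : PQ (YY g) (2 * 1 + 1) = 1 * YY g 0 * YY g 1 * YY g 2 := rfl
  have e0 := T3_0 hg
  have e1 := T3_1 hg
  have e2 := T3_2 hg
  have f0 : tw g 1 (YY g 0) = YY g 0 := by rw [tw_YY, if_pos (by omega)]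
  have f1 : tw g 1 (YY g 1) = YY g 1 := by rw [tw_YY, if_pos (by omega)]
  have f2 : tw g 1 (YY g 2) = YY g 2 := by rw [tw_YY, if_pos (by omega)]
  apply mulAut_ext_Y
  intro k hk
  rw [MulAut.mul_apply, MulAut.mul_apply, MulAut.mul_apply, MulAut.mul_apply, MulAut.conj_apply,
    MulAut.mul_apply, iota_tw (by omega) hk, hP', inv_inv]
  rcases Nat.lt_or_ge k 3 with h | h
  · rw [if_pos (by omega)]
    interval_cases k
    · rw [f0]
      simp only [e0, e1, e2, map_mul, map_inv]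
      group
    · rw [f1]
      simp only [e0, e1, e2, map_mul, map_inv]
      group
    · rw [f2]
      simp only [e0, e1, e2, map_mul, map_inv]
      group
  · rw [if_neg (by omega)]
    split_ifs with h2
    · have e3 := T3_even hg h h2
      have f3 : tw g 1 (YY g k) = (QQ (YY g) (2 * 1 + 1))⁻¹ * YY g k := by
        rw [tw_YY, if_neg (by omega), if_pos h2]
      rw [hQ] at f3
      simp only [e0, e1, e2, e3, f0, f1, f2, f3, map_mul, map_inv, map_one]
      group
    · have e3 := T3_odd hg h (by omega)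
      have f3 : tw g 1 (YY g k) = YY g k * QQ (YY g) (2 * 1 + 1) := by
        rw [tw_YY, if_neg (by omega), if_neg h2]
      rw [hQ] at f3
      simp only [e0, e1, e2, e3, f0, f1, f2, f3, map_mul, map_inv, map_one]
      simp only [mul_assoc, mul_inv_rev, inv_inv, inv_one, one_mul, mul_one, inv_mul_cancel_left,
        mul_inv_cancel_left, inv_mul_cancel, mul_inv_cancel]

/-- the element `t_0` -/
def o0 (g : ℕ) (hg : 2 ≤ g) : orientedAut g := ⟨tw g 0, tw_pres ⟨0, by omega⟩⟩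

/-- the element `t_j` -/
def oj (g j : ℕ) (hj : j < 2 * g) : orientedAut g := ⟨sv ⟨j, hj⟩, sv_pres _⟩

/-- the element `e` -/
def o1 (g : ℕ) (hg : 2 ≤ g) : orientedAut g := ⟨tw g 1, tw_pres ⟨1, by omega⟩⟩

/-- the involution -/
def oi (g : ℕ) : orientedAut g := ⟨iota g, iota_pres⟩

theorem four_mod (hg : 2 ≤ g) : tt g 0 * tt g 1 * tt g 2 * (tt g 0 * tt g 1 * tt g 2) *
    (tt g 0 * tt g 1 * tt g 2 * (tt g 0 * tt g 1 * tt g 2)) =
      AA g 1 * (hyp g * AA g 1 * hyp g) := by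
  have h0 : tt g 0 = toMod g (o0 g hg) := by
    rw [tt_zero' (by omega), AA_lt (show 0 < g by omega)]
    rfl
  have h1 : tt g 1 = toMod g (oj g 1 (by omega)) := tt_lt _
  have h2 : tt g 2 = toMod g (oj g 2 (by omega)) := tt_lt _
  have h3 : AA g 1 = toMod g (o1 g hg) := AA_lt (by omega)
  have h4 : hyp g = toMod g (oi g) := rfl
  rw [h0, h1, h2, h3, h4]
  simp only [← map_mul]
  apply class_conj (PQ (YY g) 3)⁻¹
  exact four hg

end

end Pool.Agent.E8helper34.MC
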