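import Pool.Agent.E8helper34.MC.Win
import Pool.Agent.E8helper34.MC.Four

set_option autoImplicit false

/-! The two relations in windows of three handles. -/

namespace Pool.Agent.E8helper34.MC

open Pool.Agent.H29R2.MG Pool.Agent.TH35.MG Pool.Agent.R352.MG Pool.Agent.R665.MGR

/-- the product conjugating the twist about `a_p` to the twist about `a_{p+2}` -/
def Zw {G : Type*} [Group G] (B0 C1 B1 A1 C2 B2 : G) : G :=
  B0 * C1 * B1 * A1 * C2 * B1 * B2 * C2 * C1 * B1 * A1 * B0 * C1 * B1 * C2 * B2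

/-- the product in the star relation -/
def Fw {G : Type*} [Group G] (C1 C2 A1 B1 A0 A2 : G) : G :=
  (C1 * C2 * A1 * B1) * (C1 * C2 * A1 * B1) * (C1 * C2 * A1 * B1) * A0⁻¹ * A2⁻¹

section
variable {g p : ℕ}

theorem relZ_abs {h : p + 2 < g} {A0 A1 A2 B0 B1 B2 C1 C2 : MulAut (SurfaceGroup g)}
    (a0 : RW g p h A0 (dA 0)) (a1 : RW g p h A1 (dA 1)) (a2 : RW g p h A2 (dA 2))
    (b0 : RW g p h B0 (dB 0)) (b1 : RW g p h B1 (dB 1)) (b2 : RW g p h B2 (dB 2))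
    (c0 : RW g p h C1 (dC 0)) (c1 : RW g p h C2 (dC 1)) :
    A0 * Zw B0 C1 B1 A1 C2 B2 = Zw B0 C1 B1 A1 C2 B2 * A2 := by
  have z := (((((((((((((((b0.mul c0).mul b1).mul a1).mul c1).mul b1).mul b2).mul c1).mul
    c0).mul b1).mul a1).mul b0).mul c0).mul b1).mul c1).mul b2)
  exact (a0.mul z).eq (z.mul a2) (by decide +kernel)

theorem relF_abs {h : p + 2 < g} {A0 A1 A2 B0 B1 C1 C2 : MulAut (SurfaceGroup g)}
    (a0 : RW g p h A0⁻¹ (dAi 0)) (a1 : RW g p h A1 (dA 1)) (a2 : RW g p h A2⁻¹ (dAi 2))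
    (b0 : RW g p h B0 (dB 0)) (b1 : RW g p h B1 (dB 1))
    (c0 : RW g p h C1 (dC 0)) (c1 : RW g p h C2 (dC 1)) :
    Fw C1 C2 A1 B1 A0 A2 * B0 * Fw C1 C2 A1 B1 A0 A2 =
      B0 * Fw C1 C2 A1 B1 A0 A2 * B0 := by
  have w := ((c0.mul c1).mul a1).mul b1
  have f := (((w.mul w).mul w).mul a0).mul a2
  exact ((f.mul b0).mul f).eq ((b0.mul f).mul b0) (by decide +kernel)

theorem map_Zw {G G' : Type*} [Group G] [Group G'] (φ : G →* G') (B0 C1 B1 A1 C2 B2 : G) :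
    φ (Zw B0 C1 B1 A1 C2 B2) = Zw (φ B0) (φ C1) (φ B1) (φ A1) (φ C2) (φ B2) := by
  unfold Zw
  simp only [map_mul]

theorem map_Fw {G G' : Type*} [Group G] [Group G'] (φ : G →* G') (C1 C2 A1 B1 A0 A2 : G) :
    φ (Fw C1 C2 A1 B1 A0 A2) = Fw (φ C1) (φ C2) (φ A1) (φ B1) (φ A0) (φ A2) := by
  unfold Fw
  simp only [map_mul, map_inv]

/-- the element of `orientedAut` -/
def oA (g m : ℕ) (h : m < g) : orientedAut g := ⟨tw g m, tw_pres ⟨m, h⟩⟩

theorem relZ (h : p + 2 < g) :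
    AA g p * Zw (tt g (2 * p + 1)) (tt g (2 * p + 2)) (tt g (2 * p + 3)) (AA g (p + 1))
        (tt g (2 * p + 4)) (tt g (2 * p + 5)) =
      Zw (tt g (2 * p + 1)) (tt g (2 * p + 2)) (tt g (2 * p + 3)) (AA g (p + 1))
        (tt g (2 * p + 4)) (tt g (2 * p + 5)) * AA g (p + 2) := by
  have a0 : AA g p = toMod g (oA g p (by omega)) := AA_lt (by omega)
  have a1 : AA g (p + 1) = toMod g (oA g (p + 1) (by omega)) := AA_lt (by omega)
  have a2 : AA g (p + 2) = toMod g (oA g (p + 2) h) := AA_lt h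
  have t1 : tt g (2 * p + 1) = toMod g (oj g (2 * p + 1) (by omega)) := tt_lt _
  have t2 : tt g (2 * p + 2) = toMod g (oj g (2 * p + 2) (by omega)) := tt_lt _
  have t3 : tt g (2 * p + 3) = toMod g (oj g (2 * p + 3) (by omega)) := tt_lt _
  have t4 : tt g (2 * p + 4) = toMod g (oj g (2 * p + 4) (by omega)) := tt_lt _
  have t5 : tt g (2 * p + 5) = toMod g (oj g (2 * p + 5) (by omega)) := tt_lt _
  rw [a0, a1, a2, t1, t2, t3, t4, t5, ← map_Zw, ← map_mul, ← map_mul]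
  congr 1
  apply (orientedAut g).subtype_injective
  rw [map_mul, map_mul, map_Zw]
  exact relZ_abs (h := h) (RW_A 0) (RW_A 1) (RW_A 2) (RW_B 0) (RW_B 1) (RW_B 2) RW_C0 RW_C1

theorem relF (hg : 3 ≤ g) :
    Fw (tt g 2) (tt g 4) (AA g 1) (tt g 3) (AA g 0) (AA g 2) * tt g 1 *
      Fw (tt g 2) (tt g 4) (AA g 1) (tt g 3) (AA g 0) (AA g 2) =
    tt g 1 * Fw (tt g 2) (tt g 4) (AA g 1) (tt g 3) (AA g 0) (AA g 2) * tt g 1 := by
  have h : 0 + 2 < g := by omega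
  have a0 : AA g 0 = toMod g (oA g 0 (by omega)) := AA_lt (by omega)
  have a1 : AA g 1 = toMod g (oA g 1 (by omega)) := AA_lt (by omega)
  have a2 : AA g 2 = toMod g (oA g 2 (by omega)) := AA_lt (by omega)
  have t1 : tt g 1 = toMod g (oj g 1 (by omega)) := tt_lt _
  have t2 : tt g 2 = toMod g (oj g 2 (by omega)) := tt_lt _
  have t3 : tt g 3 = toMod g (oj g 3 (by omega)) := tt_lt _
  have t4 : tt g 4 = toMod g (oj g 4 (by omega)) := tt_lt _
  rw [a0, a1, a2, t1, t2, t3, t4, ← map_Fw, ← map_mul, ← map_mul, ← map_mul, ← map_mul]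
  congr 1
  apply (orientedAut g).subtype_injective
  simp only [map_mul, map_Fw]
  exact relF_abs (h := h) (A0 := tw g 0) (A1 := tw g 1) (A2 := tw g 2)
    (RW_Ai (h := h) 0) (RW_A (h := h) 1) (RW_Ai (h := h) 2) (RW_B (h := h) 0)
    (RW_B (h := h) 1) (RW_C0 (h := h)) (RW_C1 (h := h))

end

end Pool.Agent.E8helper34.MC
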