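import Pool.Agent.R665.MGR.Bas
import Pool.Agent.R665.MGR.Tor

set_option autoImplicit false

/-! The action of the twists on an extension of the homology by a trivial module. -/

namespace Pool.Agent.E8helper34.MC

open Pool.Agent.R665.MGR

theorem core {V : Type*} (F : ℤ → ℤ → ℤ → ℤ → ℤ → ℤ → ℤ → ℤ → V) (c7 : ℤ)
    (B0 C1 B1 C2 B2 A0 A1 : V → V)
    (hB0 : ∀ c0 c1 c2 c3 c4 c5 c6 c8, B0 (F c0 c1 c2 c3 c4 c5 c6 c8) =
      F c0 c1 (c2 - c0 - c1 + c3) c3 c4 c5 c6 c8)
    (hC1 : ∀ c0 c1 c2 c3 c4 c5 c6 c8, C1 (F c0 c1 c2 c3 c4 c5 c6 c8) =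
      F c0 c1 c2 (c3 - c2 + c4) c4 c5 c6 c8)
    (hB1 : ∀ c0 c1 c2 c3 c4 c5 c6 c8, B1 (F c0 c1 c2 c3 c4 c5 c6 c8) =
      F c0 c1 c2 c3 (c4 - c3 + c5) c5 c6 c8)
    (hC2 : ∀ c0 c1 c2 c3 c4 c5 c6 c8, C2 (F c0 c1 c2 c3 c4 c5 c6 c8) =
      F c0 c1 c2 c3 c4 (c5 - c4 + c6) c6 c8)
    (hB2 : ∀ c0 c1 c2 c3 c4 c5 c6 c8, B2 (F c0 c1 c2 c3 c4 c5 c6 c8) =
      F c0 c1 c2 c3 c4 c5 (c6 - c5 + c7) c8)
    (hA0 : ∀ c0 c1 c2 c3 c4 c5 c6 c8, A0 (F c0 c1 c2 c3 c4 c5 c6 c8) =
      F (c0 + c2) c1 c2 c3 c4 c5 c6 c8)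
    (hA1 : ∀ c0 c1 c2 c3 c4 c5 c6 c8, A1 (F c0 c1 c2 c3 c4 c5 c6 c8) =
      F (c0 + c4) c1 c2 (c3 + c4) c4 c5 c6 (c8 + c4))
    (c0 c1 c2 c3 c4 c5 c6 c8 : ℤ) :
    A0 (B0 (C1 (B1 (A1 (C2 (B1 (B2 (C2 (C1 (B1 (A1 (B0 (C1 (B1 (C2 (B2
      (F c0 c1 c2 c3 c4 c5 c6 c8))))))))))))))))) =
    B0 (C1 (B1 (A1 (C2 (B1 (B2 (C2 (C1 (B1 (A1 (B0 (C1 (B1 (C2 (B2
      (F (c0 + c6) c1 c2 (c3 + c6) c4 (c5 + c6) c6 (c8 + 2 * c6))))))))))))))))) := by
  have hF : ∀ {a0 a1 a2 a3 a4 a5 a6 a8 b0 b1 b2 b3 b4 b5 b6 b8 : ℤ}, a0 = b0 → a1 = b1 →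
      a2 = b2 → a3 = b3 → a4 = b4 → a5 = b5 → a6 = b6 → a8 = b8 →
      F a0 a1 a2 a3 a4 a5 a6 a8 = F b0 b1 b2 b3 b4 b5 b6 b8 := by
    rintro _ _ _ _ _ _ _ _ _ _ _ _ _ _ _ _ rfl rfl rfl rfl rfl rfl rfl rfl
    rfl
  simp only [hB0, hC1, hB1, hC2, hB2, hA0, hA1]
  apply hF <;> ring

section
variable {K V : Type*} [Field K] [AddCommGroup V] [Module K V]

/-- the vectors of a window -/
def vc (P w0 w1 w2 w3 w4 w5 w6 z : V) (c7 c0 c1 c2 c3 c4 c5 c6 c8 : ℤ) : V :=
  c0 • P + c1 • w0 + c2 • w1 + c3 • w2 + c4 • w3 + c5 • w4 + c6 • w5 + c7 • w6 + c8 • z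

/-- the action of the chain `T` and of `E` on the vectors `w_j` and `z` -/
structure US (n : ℕ) (T : ℕ → Module.End K V) (E : Module.End K V) (w : ℕ → V) (z : V) :
    Prop where
  up : ∀ j, j + 1 < n → T (j + 1) (w j) = w j - w (j + 1)
  down : ∀ j, j + 1 < n → T j (w (j + 1)) = w (j + 1) + w j
  far : ∀ i < n, ∀ j < n, i ≠ j + 1 → j ≠ i + 1 → T i (w j) = w j
  E3 : E (w 3) = w 3 + (w 0 + w 2 + z)
  Ef : ∀ j < n, j ≠ 3 → E (w j) = w j
  Tz : ∀ j < n, T j z = z
  Ez : E z = z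

/-- `B` acts as the twist about `a_m` -/
structure TA (n : ℕ) (w : ℕ → V) (z : V) (m : ℕ) (B : Module.End K V) : Prop where
  val : B (w (2 * m + 1)) = w (2 * m + 1) + (uu w m + (m : ℤ) • z)
  far : ∀ j < n, j ≠ 2 * m + 1 → B (w j) = w j
  z : B z = z

variable {n : ℕ} {T : ℕ → Module.End K V} {E : Module.End K V} {w : ℕ → V} {z : V}

theorem T_uu_odd (u : US n T E w z) {m : ℕ} (hm : 2 * m + 1 < n) :
    T (2 * m + 1) (uu w m) = uu w m - w (2 * m + 1) := by
  have key : ∀ k, k < m → T (2 * m + 1) (uu w k) = uu w k := by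
    intro k
    induction k with
    | zero => intro hk; exact u.far _ hm 0 (by omega) (by omega) (by omega)
    | succ k ih =>
      intro hk
      show T _ (uu w k + w (2 * k + 2)) = uu w k + w (2 * k + 2)
      rw [map_add, ih (by omega), u.far _ hm _ (by omega) (by omega) (by omega)]
  cases m with
  | zero => exact u.up 0 (by omega)
  | succ m =>
    show T _ (uu w m + w (2 * m + 2)) = uu w m + w (2 * m + 2) - _
    rw [map_add, key m (by omega), show 2 * (m + 1) + 1 = 2 * m + 2 + 1 by ring,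
      u.up (2 * m + 2) (by omega)]
    abel

theorem T_uu_odd' (u : US n T E w z) {m i : ℕ} (hi : 2 * i + 1 < n) (hmi : m < i) :
    T (2 * i + 1) (uu w m) = uu w m := by
  induction m with
  | zero => exact u.far _ hi 0 (by omega) (by omega) (by omega)
  | succ k ih =>
    show T _ (uu w k + w (2 * k + 2)) = uu w k + w (2 * k + 2)
    rw [map_add, ih (by omega), u.far _ hi _ (by omega) (by omega) (by omega)]

theorem T_uu_even (u : US n T E w z) {m i : ℕ} (hi : 2 * i < n) (hm : 2 * m < n) :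
    T (2 * i) (uu w m) = uu w m := by
  induction m with
  | zero => exact u.far _ hi 0 (by omega) (by omega) (by omega)
  | succ k ih =>
    show T _ (uu w k + w (2 * k + 2)) = uu w k + w (2 * k + 2)
    rw [map_add, ih (by omega), u.far _ hi _ (by omega) (by omega) (by omega)]

theorem TA_uu {m k : ℕ} {B : Module.End K V} (a : TA n w z m B) (hk : 2 * k < n) :
    B (uu w k) = uu w k := by
  induction k with
  | zero => exact a.far 0 (by omega) (by omega)
  | succ k ih =>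
    show B (uu w k + w (2 * k + 2)) = uu w k + w (2 * k + 2)
    rw [map_add, ih (by omega), a.far _ (by omega) (by omega)]

/-- the step: the twist about `a_{p+2}` -/
theorem TA_step (u : US n T E w z) {p : ℕ} (hp : 2 * p + 5 < n) (hpar : n % 2 = 0)
    {A0 A1 A2 : Module.End K V} (a0 : TA n w z p A0) (a1 : TA n w z (p + 1) A1)
    (hinj : ∀ j < n, Function.Injective (T j)) (hinjA : Function.Injective A1)
    (rel : ∀ v, A0 (T (2 * p + 1) (T (2 * p + 2) (T (2 * p + 3) (A1 (T (2 * p + 4)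
      (T (2 * p + 3) (T (2 * p + 5) (T (2 * p + 4) (T (2 * p + 2) (T (2 * p + 3) (A1
      (T (2 * p + 1) (T (2 * p + 2) (T (2 * p + 3) (T (2 * p + 4)
      (T (2 * p + 5) v)))))))))))))))) =
      T (2 * p + 1) (T (2 * p + 2) (T (2 * p + 3) (A1 (T (2 * p + 4)
      (T (2 * p + 3) (T (2 * p + 5) (T (2 * p + 4) (T (2 * p + 2) (T (2 * p + 3) (A1
      (T (2 * p + 1) (T (2 * p + 2) (T (2 * p + 3) (T (2 * p + 4)
      (T (2 * p + 5) (A2 v)))))))))))))))))  :
    TA n w z (p + 2) A2 := by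
  -- it is enough to check the values after the product
  have key : ∀ v v' : V, A0 (T (2 * p + 1) (T (2 * p + 2) (T (2 * p + 3) (A1 (T (2 * p + 4)
      (T (2 * p + 3) (T (2 * p + 5) (T (2 * p + 4) (T (2 * p + 2) (T (2 * p + 3) (A1
      (T (2 * p + 1) (T (2 * p + 2) (T (2 * p + 3) (T (2 * p + 4)
      (T (2 * p + 5) v)))))))))))))))) =
      T (2 * p + 1) (T (2 * p + 2) (T (2 * p + 3) (A1 (T (2 * p + 4)
      (T (2 * p + 3) (T (2 * p + 5) (T (2 * p + 4) (T (2 * p + 2) (T (2 * p + 3) (A1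
      (T (2 * p + 1) (T (2 * p + 2) (T (2 * p + 3) (T (2 * p + 4)
      (T (2 * p + 5) v'))))))))))))))) → A2 v = v' := by
    intro v v' h
    rw [rel v] at h
    have i1 := hinj (2 * p + 1) (by omega)
    have i2 := hinj (2 * p + 2) (by omega)
    have i3 := hinj (2 * p + 3) (by omega)
    have i4 := hinj (2 * p + 4) (by omega)
    have i5 := hinj (2 * p + 5) (by omega)
    exact i5 (i4 (i3 (i2 (i1 (hinjA (i3 (i2 (i4 (i5 (i3 (i4 (hinjA (i3 (i2 (i1 h)))))))))))))))
  -- a vector fixed by everything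
  have fixed : ∀ v : V, T (2 * p + 1) v = v → T (2 * p + 2) v = v → T (2 * p + 3) v = v →
      T (2 * p + 4) v = v → T (2 * p + 5) v = v → A0 v = v → A1 v = v → A2 v = v := by
    intro v h1 h2 h3 h4 h5 h6 h7
    apply key
    simp only [h1, h2, h3, h4, h5, h6, h7]
  -- the window
  have tP1 : T (2 * p + 1) (uu w p) = uu w p - w (2 * p + 1) := T_uu_odd u (by omega)
  have tP2 : T (2 * p + 2) (uu w p) = uu w p := by
    have := T_uu_even u (m := p) (i := p + 1) (by omega) (by omega)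
    exact this
  have tP3 : T (2 * p + 3) (uu w p) = uu w p := by
    have := T_uu_odd' u (m := p) (i := p + 1) (by omega) (by omega)
    exact this
  have tP4 : T (2 * p + 4) (uu w p) = uu w p := by
    have := T_uu_even u (m := p) (i := p + 2) (by omega) (by omega)
    exact this
  have tP5 : T (2 * p + 5) (uu w p) = uu w p := by
    have := T_uu_odd' u (m := p) (i := p + 2) (by omega) (by omega)
    exact this
  have aP0 : A0 (uu w p) = uu w p := TA_uu a0 (by omega)
  have aP1 : A1 (uu w p) = uu w p := TA_uu a1 (by omega)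
  have z1 := u.Tz (2 * p + 1) (by omega)
  have z2 := u.Tz (2 * p + 2) (by omega)
  have z3 := u.Tz (2 * p + 3) (by omega)
  have z4 := u.Tz (2 * p + 4) (by omega)
  have z5 := u.Tz (2 * p + 5) (by omega)
  have az0 := a0.z
  have az1 := a1.z
  -- abbreviations
  obtain ⟨P, hP⟩ : ∃ P : V, P = uu w p + (p : ℤ) • z := ⟨_, rfl⟩
  have q1 : T (2 * p + 1) P = P - w (2 * p + 1) := by
    rw [hP, map_add, map_zsmul, tP1, z1]; abel
  have q2 : T (2 * p + 2) P = P := by rw [hP, map_add, map_zsmul, tP2, z2]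
  have q3 : T (2 * p + 3) P = P := by rw [hP, map_add, map_zsmul, tP3, z3]
  have q4 : T (2 * p + 4) P = P := by rw [hP, map_add, map_zsmul, tP4, z4]
  have q5 : T (2 * p + 5) P = P := by rw [hP, map_add, map_zsmul, tP5, z5]
  have r0 : A0 P = P := by rw [hP, map_add, map_zsmul, aP0, az0]
  have r1 : A1 P = P := by rw [hP, map_add, map_zsmul, aP1, az1]
  have m0 : A0 (w (2 * p + 1)) = w (2 * p + 1) + P := by rw [hP]; exact a0.val
  have m1 : A1 (w (2 * p + 3)) = w (2 * p + 3) + (P + w (2 * p + 2) + z) := by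
    have h1 := a1.val
    have h2 : uu w (p + 1) = uu w p + w (2 * p + 2) := rfl
    rw [h2, show 2 * (p + 1) + 1 = 2 * p + 3 by ring] at h1
    rw [h1, hP]
    push_cast
    module
  -- the chain
  have f := u.far
  have b0_0 : T (2 * p + 1) (w (2 * p)) = w (2 * p) - w (2 * p + 1) := u.up _ (by omega)
  have b0_1 : T (2 * p + 1) (w (2 * p + 1)) = w (2 * p + 1) :=
    f _ (by omega) _ (by omega) (by omega) (by omega)
  have b0_2 : T (2 * p + 1) (w (2 * p + 2)) = w (2 * p + 2) + w (2 * p + 1) :=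
    u.down _ (by omega)
  have b0_3 : T (2 * p + 1) (w (2 * p + 3)) = w (2 * p + 3) :=
    f _ (by omega) _ (by omega) (by omega) (by omega)
  have b0_4 : T (2 * p + 1) (w (2 * p + 4)) = w (2 * p + 4) :=
    f _ (by omega) _ (by omega) (by omega) (by omega)
  have b0_5 : T (2 * p + 1) (w (2 * p + 5)) = w (2 * p + 5) :=
    f _ (by omega) _ (by omega) (by omega) (by omega)
  have c1_0 : T (2 * p + 2) (w (2 * p)) = w (2 * p) :=
    f _ (by omega) _ (by omega) (by omega) (by omega)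
  have c1_1 : T (2 * p + 2) (w (2 * p + 1)) = w (2 * p + 1) - w (2 * p + 2) :=
    u.up _ (by omega)
  have c1_2 : T (2 * p + 2) (w (2 * p + 2)) = w (2 * p + 2) :=
    f _ (by omega) _ (by omega) (by omega) (by omega)
  have c1_3 : T (2 * p + 2) (w (2 * p + 3)) = w (2 * p + 3) + w (2 * p + 2) :=
    u.down _ (by omega)
  have c1_4 : T (2 * p + 2) (w (2 * p + 4)) = w (2 * p + 4) :=
    f _ (by omega) _ (by omega) (by omega) (by omega)
  have c1_5 : T (2 * p + 2) (w (2 * p + 5)) = w (2 * p + 5) :=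
    f _ (by omega) _ (by omega) (by omega) (by omega)
  have b1_0 : T (2 * p + 3) (w (2 * p)) = w (2 * p) :=
    f _ (by omega) _ (by omega) (by omega) (by omega)
  have b1_1 : T (2 * p + 3) (w (2 * p + 1)) = w (2 * p + 1) :=
    f _ (by omega) _ (by omega) (by omega) (by omega)
  have b1_2 : T (2 * p + 3) (w (2 * p + 2)) = w (2 * p + 2) - w (2 * p + 3) :=
    u.up _ (by omega)
  have b1_3 : T (2 * p + 3) (w (2 * p + 3)) = w (2 * p + 3) :=
    f _ (by omega) _ (by omega) (by omega) (by omega)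
  have b1_4 : T (2 * p + 3) (w (2 * p + 4)) = w (2 * p + 4) + w (2 * p + 3) :=
    u.down _ (by omega)
  have b1_5 : T (2 * p + 3) (w (2 * p + 5)) = w (2 * p + 5) :=
    f _ (by omega) _ (by omega) (by omega) (by omega)
  have c2_0 : T (2 * p + 4) (w (2 * p)) = w (2 * p) :=
    f _ (by omega) _ (by omega) (by omega) (by omega)
  have c2_1 : T (2 * p + 4) (w (2 * p + 1)) = w (2 * p + 1) :=
    f _ (by omega) _ (by omega) (by omega) (by omega)
  have c2_2 : T (2 * p + 4) (w (2 * p + 2)) = w (2 * p + 2) :=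
    f _ (by omega) _ (by omega) (by omega) (by omega)
  have c2_3 : T (2 * p + 4) (w (2 * p + 3)) = w (2 * p + 3) - w (2 * p + 4) :=
    u.up _ (by omega)
  have c2_4 : T (2 * p + 4) (w (2 * p + 4)) = w (2 * p + 4) :=
    f _ (by omega) _ (by omega) (by omega) (by omega)
  have c2_5 : T (2 * p + 4) (w (2 * p + 5)) = w (2 * p + 5) + w (2 * p + 4) :=
    u.down _ (by omega)
  have b2_0 : T (2 * p + 5) (w (2 * p)) = w (2 * p) :=
    f _ (by omega) _ (by omega) (by omega) (by omega)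
  have b2_1 : T (2 * p + 5) (w (2 * p + 1)) = w (2 * p + 1) :=
    f _ (by omega) _ (by omega) (by omega) (by omega)
  have b2_2 : T (2 * p + 5) (w (2 * p + 2)) = w (2 * p + 2) :=
    f _ (by omega) _ (by omega) (by omega) (by omega)
  have b2_3 : T (2 * p + 5) (w (2 * p + 3)) = w (2 * p + 3) :=
    f _ (by omega) _ (by omega) (by omega) (by omega)
  have b2_4 : T (2 * p + 5) (w (2 * p + 4)) = w (2 * p + 4) - w (2 * p + 5) :=
    u.up _ (by omega)
  have b2_5 : T (2 * p + 5) (w (2 * p + 5)) = w (2 * p + 5) :=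
    f _ (by omega) _ (by omega) (by omega) (by omega)
  have a0_0 : A0 (w (2 * p)) = w (2 * p) := a0.far _ (by omega) (by omega)
  have a0_2 : A0 (w (2 * p + 2)) = w (2 * p + 2) := a0.far _ (by omega) (by omega)
  have a0_3 : A0 (w (2 * p + 3)) = w (2 * p + 3) := a0.far _ (by omega) (by omega)
  have a0_4 : A0 (w (2 * p + 4)) = w (2 * p + 4) := a0.far _ (by omega) (by omega)
  have a0_5 : A0 (w (2 * p + 5)) = w (2 * p + 5) := a0.far _ (by omega) (by omega)
  have a1_0 : A1 (w (2 * p)) = w (2 * p) := a1.far _ (by omega) (by omega)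
  have a1_1 : A1 (w (2 * p + 1)) = w (2 * p + 1) := a1.far _ (by omega) (by omega)
  have a1_2 : A1 (w (2 * p + 2)) = w (2 * p + 2) := a1.far _ (by omega) (by omega)
  have a1_4 : A1 (w (2 * p + 4)) = w (2 * p + 4) := a1.far _ (by omega) (by omega)
  have a1_5 : A1 (w (2 * p + 5)) = w (2 * p + 5) := a1.far _ (by omega) (by omega)
  -- the general computation
  have comp : ∀ (w6 : V) (c7 : ℤ), T (2 * p + 1) w6 = w6 → T (2 * p + 2) w6 = w6 →
      T (2 * p + 3) w6 = w6 → T (2 * p + 4) w6 = w6 →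
      c7 • T (2 * p + 5) w6 = c7 • (w6 + w (2 * p + 5)) → A0 w6 = w6 → A1 w6 = w6 →
      ∀ c0 c1 c2 c3 c4 c5 c6 c8 : ℤ, A2 (vc P (w (2 * p)) (w (2 * p + 1)) (w (2 * p + 2))
        (w (2 * p + 3)) (w (2 * p + 4)) (w (2 * p + 5)) w6 z c7 c0 c1 c2 c3 c4 c5 c6 c8) =
        vc P (w (2 * p)) (w (2 * p + 1)) (w (2 * p + 2)) (w (2 * p + 3)) (w (2 * p + 4))
          (w (2 * p + 5)) w6 z c7 (c0 + c6) c1 c2 (c3 + c6) c4 (c5 + c6) c6 (c8 + 2 * c6) := by
    intro w6 c7 s1 s2 s3 s4 s5 s6 s7 c0 c1 c2 c3 c4 c5 c6 c8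
    apply key
    apply core (fun c0 c1 c2 c3 c4 c5 c6 c8 => vc P (w (2 * p)) (w (2 * p + 1)) (w (2 * p + 2))
        (w (2 * p + 3)) (w (2 * p + 4)) (w (2 * p + 5)) w6 z c7 c0 c1 c2 c3 c4 c5 c6 c8) c7
    · intro c0 c1 c2 c3 c4 c5 c6 c8
      simp only [vc, map_add, map_zsmul, q1, b0_0, b0_1, b0_2, b0_3, b0_4, b0_5, s1, z1]
      module
    · intro c0 c1 c2 c3 c4 c5 c6 c8
      simp only [vc, map_add, map_zsmul, q2, c1_0, c1_1, c1_2, c1_3, c1_4, c1_5, s2, z2]
      module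
    · intro c0 c1 c2 c3 c4 c5 c6 c8
      simp only [vc, map_add, map_zsmul, q3, b1_0, b1_1, b1_2, b1_3, b1_4, b1_5, s3, z3]
      module
    · intro c0 c1 c2 c3 c4 c5 c6 c8
      simp only [vc, map_add, map_zsmul, q4, c2_0, c2_1, c2_2, c2_3, c2_4, c2_5, s4, z4]
      module
    · intro c0 c1 c2 c3 c4 c5 c6 c8
      simp only [vc, map_add, map_zsmul, q5, b2_0, b2_1, b2_2, b2_3, b2_4, b2_5, s5, z5]
      module
    · intro c0 c1 c2 c3 c4 c5 c6 c8
      simp only [vc, map_add, map_zsmul, r0, a0_0, m0, a0_2, a0_3, a0_4, a0_5, s6, az0]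
      module
    · intro c0 c1 c2 c3 c4 c5 c6 c8
      simp only [vc, map_add, map_zsmul, r1, a1_0, a1_1, a1_2, m1, a1_4, a1_5, s7, az1]
      module
  have comp0 := comp 0 0 (map_zero _) (map_zero _) (map_zero _) (map_zero _)
    (by rw [zero_zsmul, zero_zsmul]) (map_zero _) (map_zero _)
  refine ⟨?_, ?_, ?_⟩
  · have h := comp0 0 0 0 0 0 0 1 0
    simp only [vc, zero_zsmul, one_zsmul, zero_add, add_zero, mul_one, smul_zero] at h
    rw [show 2 * (p + 2) + 1 = 2 * p + 5 by ring, h]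
    have h2 : uu w (p + 2) = uu w p + w (2 * p + 2) + w (2 * p + 4) := rfl
    rw [h2, hP]
    push_cast
    module
  · intro j hj hne
    rcases Nat.lt_or_ge j (2 * p) with h1 | h1
    · exact fixed _ (f _ (by omega) _ hj (by omega) (by omega))
        (f _ (by omega) _ hj (by omega) (by omega)) (f _ (by omega) _ hj (by omega) (by omega))
        (f _ (by omega) _ hj (by omega) (by omega)) (f _ (by omega) _ hj (by omega) (by omega))
        (a0.far _ hj (by omega)) (a1.far _ hj (by omega))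
    · rcases Nat.lt_or_ge (2 * p + 6) j with h2 | h2
      · exact fixed _ (f _ (by omega) _ hj (by omega) (by omega))
          (f _ (by omega) _ hj (by omega) (by omega))
          (f _ (by omega) _ hj (by omega) (by omega))
          (f _ (by omega) _ hj (by omega) (by omega))
          (f _ (by omega) _ hj (by omega) (by omega))
          (a0.far _ hj (by omega)) (a1.far _ hj (by omega))
      · obtain ⟨i, rfl⟩ : ∃ i, j = 2 * p + i := ⟨j - 2 * p, by omega⟩
        have hi : i ≤ 6 := by omega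
        interval_cases i
        · have h := comp0 0 1 0 0 0 0 0 0
          simpa only [vc, zero_zsmul, one_zsmul, zero_add, add_zero, mul_zero, smul_zero] using h
        · have h := comp0 0 0 1 0 0 0 0 0
          simpa only [vc, zero_zsmul, one_zsmul, zero_add, add_zero, mul_zero, smul_zero] using h
        · have h := comp0 0 0 0 1 0 0 0 0
          simpa only [vc, zero_zsmul, one_zsmul, zero_add, add_zero, mul_zero, smul_zero] using h
        · have h := comp0 0 0 0 0 1 0 0 0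
          simpa only [vc, zero_zsmul, one_zsmul, zero_add, add_zero, mul_zero, smul_zero] using h
        · have h := comp0 0 0 0 0 0 1 0 0
          simpa only [vc, zero_zsmul, one_zsmul, zero_add, add_zero, mul_zero, smul_zero] using h
        · omega
        · have h := comp (w (2 * p + 6)) 1 (f _ (by omega) _ hj (by omega) (by omega))
            (f _ (by omega) _ hj (by omega) (by omega))
            (f _ (by omega) _ hj (by omega) (by omega))
            (f _ (by omega) _ hj (by omega) (by omega))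
            (by rw [one_zsmul, one_zsmul]; exact u.down _ hj)
            (a0.far _ hj (by omega)) (a1.far _ hj (by omega)) 0 0 0 0 0 0 0 0
          simpa only [vc, zero_zsmul, one_zsmul, zero_add, add_zero, mul_zero, smul_zero] using h
  · exact fixed _ z1 z2 z3 z4 z5 az0 az1

end

end Pool.Agent.E8helper34.MC
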