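import Pool.Agent.E8helper34.MC.S1

set_option autoImplicit false

/-! Duality, perfectness and the decomposition. -/

namespace Pool.Agent.E8helper34.MC

open Pool.Agent.H29R2.MG Pool.Agent.TH35.MG Pool.Agent.R352.MG Pool.Agent.R665.MGR

section nrel
variable {K V : Type*} [Field K] [AddCommGroup V] [Module K V]
  {n : ℕ} {N : ℕ → Module.End K V} {E : Module.End K V}

theorem rr_bot (r : NRel n N E) (hn : 6 ≤ n) {y : V} (hy : y ∈ Vim n N E)
    (hz : zz N E y = 0) : RRel n N E ⊥ (ww N y) where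
  up := by
    intro j _
    rw [ww_succ, neg_add_cancel]
    exact Submodule.zero_mem _
  down := by
    intro j hj
    rw [ww_down r hn hy hj, sub_self]
    exact Submodule.zero_mem _
  far := by
    intro i hi j hj h1 h2
    rw [ww_far r y hi hj h1 h2]
    exact Submodule.zero_mem _
  E3 := by
    have h : E (ww N y 3) - (ww N y 0 + ww N y 2) = 0 := hz
    rw [h]
    exact Submodule.zero_mem _
  Efar := by
    intro j hj h3
    rw [ww_Efar r y hj h3]
    exact Submodule.zero_mem _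

/-- the span of the vectors `w_j(y)` -/
def WW (n : ℕ) (N : ℕ → Module.End K V) (E : Module.End K V) : Submodule K V :=
  Submodule.span K {v | ∃ y ∈ Vim n N E, ∃ j < n, v = ww N y j}

theorem ww_mem_WW {y : V} (hy : y ∈ Vim n N E) {j : ℕ} (hj : j < n) :
    ww N y j ∈ WW n N E := Submodule.subset_span ⟨y, hy, j, hj, rfl⟩

theorem uu_mem_WW {y : V} (hy : y ∈ Vim n N E) {m : ℕ} (hm : 2 * m < n) :
    uu (ww N y) m ∈ WW n N E := by
  induction m with
  | zero => exact ww_mem_WW hy (by omega)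
  | succ m ih => exact Submodule.add_mem _ (ih (by omega)) (ww_mem_WW hy (by omega))

theorem N_Vinv {v : V} (hv : v ∈ Vinv n N E) {j : ℕ} (hj : j < n) : N j v = 0 :=
  (mem_Vinv.1 hv).1 j hj

theorem ww_zero (r : NRel n N E) (hn : 6 ≤ n) {y : V} (hy : y ∈ Vim n N E)
    (h : ww N y 0 ∈ Vinv n N E) : ww N y 0 = 0 := by
  have h1 := ww_down r hn hy (j := 0) (by omega)
  have h2 := ww_succ (N := N) y 0
  rw [N_Vinv h (by omega)] at h2
  have h3 : ww N y 1 = 0 := (neg_eq_zero.1 h2.symm)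
  rw [show 0 + 1 = 1 from rfl, h3, map_zero] at h1
  exact h1.symm

theorem ww_zero_all (y : V) (h : ww N y 0 = 0) (j : ℕ) : ww N y j = 0 := by
  induction j with
  | zero => exact h
  | succ j ih =>
    have h2 := ww_succ (N := N) y j
    rw [ih, map_zero] at h2
    exact neg_eq_zero.1 h2.symm

/-- the decomposition of the space -/
theorem decomp {g : ℕ} (hg : 3 ≤ g) (r : NRel (2 * g) N E)
    (hz : ∀ y ∈ Vim (2 * g) N E, zz N E y = 0)
    (hq : ∀ v, N 0 (N 1 (N 2 (N 3 (E v)))) + N 0 v + N 0 (N 1 (N 2 v)) ∈ Vinv (2 * g) N E)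
    (hp : ∀ v, (∀ j < 2 * g, N j v ∈ Vinv (2 * g) N E) → E v ∈ Vinv (2 * g) N E →
      v ∈ Vinv (2 * g) N E) (v : V) :
    ∃ w ∈ WW (2 * g) N E, v - w ∈ Vinv (2 * g) N E := by
  have hn : 6 ≤ 2 * g := by omega
  have key : ∀ k ≤ 2 * g, ∃ w ∈ WW (2 * g) N E, ∀ j < k, N j (v - w) ∈ Vinv (2 * g) N E := by
    intro k
    induction k with
    | zero => intro _; exact ⟨0, Submodule.zero_mem _, fun j hj => absurd hj (by omega)⟩
    | succ k ih =>
      intro hk
      obtain ⟨w, hw, h1⟩ := ih (by omega)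
      rcases Nat.lt_or_ge (k + 1) (2 * g) with h2 | h2
      · obtain ⟨s, hs, h3⟩ := N_eq_w r hn k (by omega) (N (k + 1) (N k (v - w)))
          (N_mem_Vim h2 _)
        have h4 := X_inv r hn h2 (v - w)
        rw [h3] at h4
        refine ⟨w - ww N s (k + 1), Submodule.sub_mem _ hw (ww_mem_WW hs h2), ?_⟩
        intro j hj
        have e : v - (w - ww N s (k + 1)) = (v - w) + ww N s (k + 1) := by abel
        rw [e, map_add]
        rcases Nat.lt_or_ge j k with h5 | h5
        · rw [ww_far r s (by omega) h2 (by omega) (by omega), add_zero]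
          exact h1 j h5
        · obtain rfl : j = k := by omega
          rw [ww_down r hn hs h2]
          exact h4
      · obtain ⟨m, rfl⟩ : ∃ m, g = m + 1 := ⟨g - 1, by omega⟩
        obtain rfl : k = 2 * m + 1 := by omega
        obtain ⟨s, hs, h3⟩ := N_eq_w r hn (2 * m + 1) (by omega)
          (N (2 * m) (N (2 * m + 1) (v - w))) (N_mem_Vim (by omega) _)
        have h4 := X_inv r hn (j := 2 * m) (by omega) (v - w)
        rw [r.br _ (by omega), h3] at h4
        have rr := rr_bot r hn hs (hz s hs)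
        refine ⟨w + uu (ww N s) m, Submodule.add_mem _ hw (uu_mem_WW hs (by omega)), ?_⟩
        intro j hj
        rw [← sub_sub, map_sub]
        rcases Nat.even_or_odd' j with ⟨i, rfl | rfl⟩
        · have h5 := B2 rr (i := i) (by omega) m (by omega)
          rw [(Submodule.mem_bot K).1 h5, sub_zero]
          exact h1 _ (by omega)
        · have h5 := B1 rr (i := i) (by omega) m (by omega)
          rw [Submodule.mem_bot] at h5
          by_cases hmi : m = i
          · subst hmi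
            rw [if_pos rfl, one_smul] at h5
            rw [eq_neg_of_add_eq_zero_left h5, sub_neg_eq_add]
            exact h4
          · rw [if_neg hmi, zero_smul, add_zero] at h5
            rw [h5, sub_zero]
            exact h1 _ (by omega)
  obtain ⟨w, hw, h1⟩ := key (2 * g) le_rfl
  refine ⟨w, hw, hp _ h1 ?_⟩
  -- the operator `E`
  set t := v - w with ht
  have q0 := N_Vinv (h1 2 (by omega)) (j := 1) (by omega)
  have q1 := hq t
  rw [q0, map_zero, add_zero] at q1
  have q2 := Submodule.sub_mem _ q1 (h1 0 (by omega))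
  rw [add_sub_cancel_right] at q2
  have q3 := XE_inv r hn t
  have q4 : E (N 3 t) = 0 := (mem_Vinv.1 (h1 3 (by omega))).2
  rw [r.brE] at q3
  obtain ⟨s, hs, h3⟩ := N_eq_w r hn 3 (by omega) (E t) (E_mem_Vim t)
  rw [h3] at q2 q3
  have e2 : N 2 (ww N s 3) = ww N s 2 := ww_down r hn hs (by omega)
  have e1 : N 1 (ww N s 2) = ww N s 1 := ww_down r hn hs (by omega)
  have e0 : N 0 (ww N s 1) = ww N s 0 := ww_down r hn hs (by omega)
  rw [e2, e1, e0] at q2
  have z0 := ww_zero r hn hs q2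
  rw [ww_zero_all s z0 3, map_zero, add_zero] at q3
  exact q3

end nrel

section
universe u
variable {g d : ℕ} {K : Type u} [Field K]

/-! ### Perfectness -/

/-- `x` moves `t` by `k D` and fixes `D` -/
def Ac (f : Mod g →* Matrix.GeneralLinearGroup (Fin d) K) (t D : Fin d → K) (x : Mod g)
    (k : ℤ) : Prop := rho f x t = t + k • D ∧ rho f x D = D

theorem Ac.mul {f : Mod g →* Matrix.GeneralLinearGroup (Fin d) K} {t D : Fin d → K}
    {x y : Mod g} {k l : ℤ} (h1 : Ac f t D x k) (h2 : Ac f t D y l) : Ac f t D (x * y) (k + l) := by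
  refine ⟨?_, ?_⟩
  · rw [rho_mul_apply, h2.1, map_add, map_zsmul, h1.1, h1.2]
    module
  · rw [rho_mul_apply, h2.2, h1.2]

theorem Ac.inv {f : Mod g →* Matrix.GeneralLinearGroup (Fin d) K} {t D : Fin d → K}
    {x : Mod g} {k : ℤ} (h1 : Ac f t D x k) : Ac f t D x⁻¹ (-k) := by
  have hD : rho f x⁻¹ D = D := by
    apply rho_inj f x
    rw [← rho_mul_apply, mul_inv_cancel, map_one, Module.End.one_apply, h1.2]
  refine ⟨?_, hD⟩
  apply rho_inj f x
  rw [← rho_mul_apply, mul_inv_cancel, map_one, Module.End.one_apply, map_add, map_zsmul, h1.1,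
    h1.2]
  module

theorem Ac.eq {f : Mod g →* Matrix.GeneralLinearGroup (Fin d) K} {t D : Fin d → K}
    {x : Mod g} {k l : ℤ} (h1 : Ac f t D x k) (h2 : Ac f t D x l) : (k - l) • D = 0 := by
  have h3 := h1.1.symm.trans h2.1
  have h4 := add_left_cancel h3
  rw [sub_smul, h4, sub_self]

variable (hd : d < (g - 5).choose 2) (f : Mod g →* Matrix.GeneralLinearGroup (Fin d) K)

include hd in
/-- perfectness of Humphries' group -/
theorem perf {t : Fin d → K} (h1 : ∀ j < 2 * g, Nf f j t ∈ Vinv (2 * g) (Nf f) (Ef f))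
    (h2 : Ef f t ∈ Vinv (2 * g) (Nf f) (Ef f)) : t ∈ Vinv (2 * g) (Nf f) (Ef f) := by
  have hg := seven_le hd
  have r := relf hd f
  obtain ⟨D, hD⟩ : ∃ D, D = Nf f 0 t := ⟨_, rfl⟩
  have hDm : D ∈ Vinv (2 * g) (Nf f) (Ef f) := hD ▸ h1 0 (by omega)
  have hN : ∀ j < 2 * g, Nf f j t = D := by
    intro j
    induction j with
    | zero => intro _; exact hD.symm
    | succ j ih =>
      intro hj
      have h3 := r.br j hj t
      rw [N_Vinv (h1 j (by omega)) hj, N_Vinv (h1 (j + 1) hj) (by omega), map_zero, map_zero,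
        add_zero, add_zero, ih (by omega)] at h3
      exact h3.symm
  have hE : Ef f t = D := by
    have h3 := r.brE t
    rw [(mem_Vinv.1 (h1 3 (by omega))).2, N_Vinv h2 (by omega), map_zero, map_zero,
        add_zero, add_zero, hN 3 (by omega)] at h3
    exact h3.symm
  have hfix := fixf hd f
  have aT : ∀ j < 2 * g, Ac f t D (tt g j) 1 := by
    intro j hj
    refine ⟨?_, hfix _ (tt_mem hj) D hDm⟩
    have h3 : rho f (tt g j) t - t = D := hN j hj
    rw [one_smul, ← h3]
    abel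
  have a1 : Ac f t D (AA g 1) 1 := by
    refine ⟨?_, hfix _ (e_mem (AA_twist (by omega))) D hDm⟩
    have h3 : rho f (AA g 1) t - t = D := hE
    rw [one_smul, ← h3]
    abel
  have a0 : Ac f t D (AA g 0) 1 := by
    rw [← tt_zero' (by omega)]
    exact aT 0 (by omega)
  have b0 := aT 1 (by omega)
  have c1 := aT 2 (by omega)
  have b1 := aT 3 (by omega)
  have c2 := aT 4 (by omega)
  have b2 := aT 5 (by omega)
  have t0 := aT 0 (by omega)
  -- the product `Z`
  have z := (((((((((((((((b0.mul c1).mul b1).mul a1).mul c2).mul b1).mul b2).mul c2).mul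
    c1).mul b1).mul a1).mul b0).mul c1).mul b1).mul c2).mul b2)
  have hrel := relZ (g := g) (p := 0) (by omega)
  simp only [mul_zero, zero_add] at hrel
  have a2 : Ac f t D (AA g 2) 1 := by
    have e : AA g 2 = (Zw (tt g 1) (tt g 2) (tt g 3) (AA g 1) (tt g 4) (tt g 5))⁻¹ *
        (AA g 0 * Zw (tt g 1) (tt g 2) (tt g 3) (AA g 1) (tt g 4) (tt g 5)) := by
      rw [hrel]; group
    rw [e]
    have h3 := z.inv.mul (a0.mul z)
    have e2 : (-(1 + 1 + 1 + 1 + 1 + 1 + 1 + 1 + 1 + 1 + 1 + 1 + 1 + 1 + 1 + 1) + (1 +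
      (1 + 1 + 1 + 1 + 1 + 1 + 1 + 1 + 1 + 1 + 1 + 1 + 1 + 1 + 1 + 1)) : ℤ) = 1 := by norm_num
    rw [e2] at h3
    exact h3
  -- the star relation
  have w := ((c1.mul c2).mul a1).mul b1
  have F := (((w.mul w).mul w).mul a0.inv).mul a2.inv
  have hF : Ac f t D (Fw (tt g 2) (tt g 4) (AA g 1) (tt g 3) (AA g 0) (AA g 2)) 10 := by
    have e2 : (1 + 1 + 1 + 1 + (1 + 1 + 1 + 1) + (1 + 1 + 1 + 1) + -1 + -1 : ℤ) = 10 := by
      norm_num
    rw [e2] at F
    exact F
  have l1 := (hF.mul b0).mul hF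
  rw [relF (by omega)] at l1
  have l2 := l1.eq ((b0.mul hF).mul b0)
  -- the chain relation
  have w3 := (t0.mul b0).mul c1
  have w12 := (w3.mul w3).mul (w3.mul w3)
  have h4 := four_mod (g := g) (by omega)
  have hE' : Ac f t D (hyp g * AA g 1 * hyp g) 11 := by
    have e : hyp g * AA g 1 * hyp g = (AA g 1)⁻¹ *
      (tt g 0 * tt g 1 * tt g 2 * (tt g 0 * tt g 1 * tt g 2) *
        (tt g 0 * tt g 1 * tt g 2 * (tt g 0 * tt g 1 * tt g 2))) := by
      rw [h4]; group
    rw [e]
    have h5 := a1.inv.mul w12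
    have e2 : (-1 + (1 + 1 + 1 + (1 + 1 + 1) + (1 + 1 + 1 + (1 + 1 + 1))) : ℤ) = 11 := by
      norm_num
    rw [e2] at h5
    exact h5
  have hb : tt g 3 * (hyp g * AA g 1 * hyp g) * tt g 3 =
      (hyp g * AA g 1 * hyp g) * tt g 3 * (hyp g * AA g 1 * hyp g) := by
    have hbr := (humRel (g := g) (by omega) (AA_twist (by omega))).braidE
    have hs := hyp_mul_self (g := g)
    have hc := hyp_tt (g := g) (j := 3) (by omega)
    calc tt g 3 * (hyp g * AA g 1 * hyp g) * tt g 3
        = (tt g 3 * hyp g) * AA g 1 * (hyp g * tt g 3) := by group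
      _ = (hyp g * tt g 3) * AA g 1 * (tt g 3 * hyp g) := by rw [hc]
      _ = hyp g * (tt g 3 * AA g 1 * tt g 3) * hyp g := by group
      _ = hyp g * (AA g 1 * tt g 3 * AA g 1) * hyp g := by rw [hbr]
      _ = hyp g * AA g 1 * (hyp g * hyp g) * tt g 3 * AA g 1 * hyp g := by rw [hs]; group
      _ = hyp g * AA g 1 * hyp g * (hyp g * tt g 3) * AA g 1 * hyp g := by group
      _ = hyp g * AA g 1 * hyp g * (tt g 3 * hyp g) * AA g 1 * hyp g := by rw [hc]
      _ = _ := by group
  have l3 := (b1.mul hE').mul b1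
  rw [hb] at l3
  have l4 := l3.eq ((hE'.mul b1).mul hE')
  have hD0 : D = 0 := by
    have e1 : ((10 + 1 + 10) - (1 + 10 + 1) : ℤ) = 9 := by norm_num
    have e2 : ((1 + 11 + 1) - (11 + 1 + 11) : ℤ) = -10 := by norm_num
    rw [e1] at l2
    rw [e2] at l4
    have e3 : D = -((-10 : ℤ) • D) - (9 : ℤ) • D := by module
    rw [e3, l2, l4]
    simp
  rw [mem_Vinv]
  refine ⟨fun j hj => by rw [hN j hj, hD0], by rw [hE, hD0]⟩

end

end Pool.Agent.E8helper34.MC
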