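import Pool.Agent.E8helper34.MC.S2

set_option autoImplicit false

/-! The classification: a basis adapted to the decomposition. -/

namespace Pool.Agent.E8helper34.MC

open Pool.Agent.H29R2.MG Pool.Agent.TH35.MG Pool.Agent.R352.MG Pool.Agent.R665.MGR Module

section nrel
variable {K V : Type*} [Field K] [AddCommGroup V] [Module K V]
  {n : ℕ} {N : ℕ → Module.End K V} {E : Module.End K V}

/-- the linear map `y ↦ y_j` -/
def yyL (N : ℕ → Module.End K V) : ℕ → Module.End K V
  | 0 => LinearMap.id
  | j + 1 => - (N j ∘ₗ yyL N j)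

theorem yyL_apply (y : V) (j : ℕ) : yyL N j y = yy N y j := by
  induction j with
  | zero => rfl
  | succ j ih =>
    show - N j (yyL N j y) = - N j (yy N y j)
    rw [ih]

/-- the linear map `y ↦ w_j(y)` -/
def wwL (N : ℕ → Module.End K V) (j : ℕ) : Module.End K V := N j ∘ₗ yyL N j

theorem wwL_apply (y : V) (j : ℕ) : wwL N j y = ww N y j := by
  show N j (yyL N j y) = N j (yy N y j)
  rw [yyL_apply]

/-- the linear map `y ↦ u_m(y)` -/
def uuL (N : ℕ → Module.End K V) : ℕ → Module.End K V
  | 0 => wwL N 0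
  | m + 1 => uuL N m + wwL N (2 * m + 2)

theorem uuL_apply (y : V) (m : ℕ) : uuL N m y = uu (ww N y) m := by
  induction m with
  | zero => exact wwL_apply y 0
  | succ m ih =>
    show uuL N m y + wwL N (2 * m + 2) y = uu (ww N y) m + ww N y (2 * m + 2)
    rw [ih, wwL_apply]

/-- the linear map from `y` to the vector of the homology basis -/
def ubL (g : ℕ) (N : ℕ → Module.End K V) : Fin g ⊕ Fin g → Module.End K V :=
  Sum.elim (fun m => uuL N m) (fun m => wwL N (2 * m + 1))

theorem ubL_apply {g : ℕ} (y : V) (k : Fin g ⊕ Fin g) : ubL g N k y = ub g (ww N y) k := by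
  rcases k with m | m
  · exact uuL_apply y m
  · exact wwL_apply y _

theorem zero_of_ww (r : NRel n N E) (hn : 6 ≤ n) {y : V} (hy : y ∈ Vim n N E) :
    ∀ j < n, ww N y j = 0 → N 0 y = 0 := by
  intro j
  induction j with
  | zero => intro _ h; exact h
  | succ j ih =>
    intro hj h
    apply ih (by omega)
    rw [← ww_down r hn hy hj, h, map_zero]

theorem N0_zero {g : ℕ} (hg : 3 ≤ g) (r : NRel (2 * g) N E)
    (hz : ∀ y ∈ Vim (2 * g) N E, zz N E y = 0) (Y : Fin g ⊕ Fin g → V)
    (hY : ∀ k, Y k ∈ Vim (2 * g) N E) (h : ∑ k, ub g (ww N (Y k)) k ∈ Vinv (2 * g) N E) :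
    ∀ k, N 0 (Y k) = 0 := by
  have hn : 6 ≤ 2 * g := by omega
  have rr : ∀ k, RRel (2 * g) N E ⊥ (ww N (Y k)) := fun k => rr_bot r hn (hY k) (hz _ (hY k))
  have hl : ∀ i : Fin g, N 0 (Y (Sum.inl i)) = 0 := by
    intro i
    have h1 := N_Vinv h (j := 2 * i + 1) (by omega)
    rw [map_sum, Fintype.sum_sum_type] at h1
    have e1 : ∑ m : Fin g, N (2 * i + 1) (ub g (ww N (Y (Sum.inr m))) (Sum.inr m)) = 0 := by
      apply Finset.sum_eq_zero
      intro m _
      exact ww_far r _ (by omega) (by omega) (by omega) (by omega)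
    have e2 : ∑ m : Fin g, N (2 * i + 1) (ub g (ww N (Y (Sum.inl m))) (Sum.inl m)) =
        - ww N (Y (Sum.inl i)) (2 * i + 1) := by
      rw [Finset.sum_eq_single i]
      · have h2 := B1 (rr (Sum.inl i)) (i := i) (by omega) (i : ℕ) (by omega)
        rw [if_pos rfl, one_smul, Submodule.mem_bot] at h2
        exact eq_neg_of_add_eq_zero_left h2
      · intro m _ hm
        have h2 := B1 (rr (Sum.inl m)) (i := i) (by omega) (m : ℕ) (by omega)
        rw [if_neg (fun e => hm (Fin.ext e)), zero_smul, add_zero, Submodule.mem_bot] at h2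
        exact h2
      · intro h; exact absurd (Finset.mem_univ _) h
    rw [e1, e2, add_zero] at h1
    exact zero_of_ww r hn (hY _) (2 * i + 1) (by omega) (neg_eq_zero.1 h1)
  have hr : ∀ (a : ℕ) (ha : a < g), N 0 (Y (Sum.inr ⟨a, ha⟩)) = 0 := by
    intro a
    induction a with
    | zero =>
      intro ha
      have h1 := N_Vinv h (j := 2 * 0) (by omega)
      rw [map_sum, Fintype.sum_sum_type] at h1
      have e1 : ∑ m : Fin g, N (2 * 0) (ub g (ww N (Y (Sum.inl m))) (Sum.inl m)) = 0 := by
        apply Finset.sum_eq_zero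
        intro m _
        have h2 := B2 (rr (Sum.inl m)) (i := 0) (by omega) (m : ℕ) (by omega)
        exact (Submodule.mem_bot K).1 h2
      have e2 : ∑ m : Fin g, N (2 * 0) (ub g (ww N (Y (Sum.inr m))) (Sum.inr m)) =
          ww N (Y (Sum.inr ⟨0, ha⟩)) 0 := by
        rw [Finset.sum_eq_single ⟨0, ha⟩]
        · exact ww_down r hn (hY _) (by omega)
        · intro m _ hm
          have : (m : ℕ) ≠ 0 := fun e => hm (Fin.ext e)
          exact ww_far r _ (by omega) (by omega) (by omega) (by omega)
        · intro h; exact absurd (Finset.mem_univ _) h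
      rw [e1, e2, zero_add] at h1
      exact h1
    | succ a ih =>
      intro ha
      have h1 := N_Vinv h (j := 2 * (a + 1)) (by omega)
      rw [map_sum, Fintype.sum_sum_type] at h1
      have e1 : ∑ m : Fin g, N (2 * (a + 1)) (ub g (ww N (Y (Sum.inl m))) (Sum.inl m)) = 0 := by
        apply Finset.sum_eq_zero
        intro m _
        have h2 := B2 (rr (Sum.inl m)) (i := a + 1) (by omega) (m : ℕ) (by omega)
        exact (Submodule.mem_bot K).1 h2
      have hag : a < g := by omega
      have hwa : ∀ j, ww N (Y (Sum.inr ⟨a, hag⟩)) j = 0 :=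
        ww_zero_all _ (ih hag)
      have e2 : ∑ m : Fin g, N (2 * (a + 1)) (ub g (ww N (Y (Sum.inr m))) (Sum.inr m)) =
          ww N (Y (Sum.inr ⟨a + 1, ha⟩)) (2 * (a + 1)) := by
        rw [Finset.sum_eq_single ⟨a + 1, ha⟩]
        · exact ww_down r hn (hY _) (by omega)
        · intro m _ hm
          have h2 : (m : ℕ) ≠ a + 1 := fun e => hm (Fin.ext e)
          show N (2 * (a + 1)) (ww N (Y (Sum.inr m)) (2 * m + 1)) = 0
          by_cases h3 : (m : ℕ) = a
          · obtain rfl : m = ⟨a, hag⟩ := Fin.ext h3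
            rw [hwa, map_zero]
          · exact ww_far r _ (by omega) (by omega) (by omega) (by omega)
        · intro h; exact absurd (Finset.mem_univ _) h
      rw [e1, e2, zero_add] at h1
      exact zero_of_ww r hn (hY _) _ (by omega) h1
  rintro (i | i)
  · exact hl i
  · exact hr i i.2

theorem ww_span {g : ℕ} (y : V) {j : ℕ} (hj : j < 2 * g) :
    ww N y j ∈ Submodule.span K (Set.range (fun k => ub g (ww N y) k)) := by
  have hu : ∀ k, ub g (ww N y) k ∈ Submodule.span K (Set.range (fun k => ub g (ww N y) k)) :=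
    fun k => Submodule.subset_span ⟨k, rfl⟩
  rcases Nat.even_or_odd' j with ⟨i, rfl | rfl⟩
  · rcases i with _ | i
    · exact hu (Sum.inl ⟨0, by omega⟩)
    · have h1 := hu (Sum.inl ⟨i + 1, by omega⟩)
      have h2 := hu (Sum.inl ⟨i, by omega⟩)
      have h3 := Submodule.sub_mem _ h1 h2
      have e : ub g (ww N y) (Sum.inl ⟨i + 1, by omega⟩) - ub g (ww N y) (Sum.inl ⟨i, by omega⟩) =
          ww N y (2 * (i + 1)) := by
        show uu (ww N y) i + ww N y (2 * i + 2) - uu (ww N y) i = _
        rw [add_sub_cancel_left]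
        rfl
      rwa [e] at h3
  · exact hu (Sum.inr ⟨i, by omega⟩)

end nrel

section
universe u
variable {g d : ℕ} {K : Type u} [Field K]

/-- the classification -/
theorem classification (hd : d < (g - 5).choose 2) (hK : ((2 * g - 2 : ℕ) : K) ≠ 0)
    (f : Mod g →* Matrix.GeneralLinearGroup (Fin d) K) :
    ∃ (a b : ℕ) (B : Basis ((Fin a × (Fin g ⊕ Fin g)) ⊕ Fin b) K (Fin d → K)),
      ∀ φ : orientedAut g, classOf g φ ∈ Humphries g →
        (∀ (i : Fin a) (y : SurfaceGroup g),
          act f (classOf g φ) (comb (fun k => B (Sum.inl (i, k))) (homologyClass y)) =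
            comb (fun k => B (Sum.inl (i, k))) (homologyClass (applyAut g φ y))) ∧
        ∀ j : Fin b, act f (classOf g φ) (B (Sum.inr j)) = B (Sum.inr j) := by
  classical
  have hg := seven_le hd
  have r := relf hd f
  have hn : 6 ≤ 2 * g := by omega
  have hz : ∀ y ∈ Vim (2 * g) (Nf f) (Ef f), zz (Nf f) (Ef f) y = 0 :=
    fun _ hy => zz_zero hd f hK hy
  set S := (Vim (2 * g) (Nf f) (Ef f)).map (Nf f 0) with hS
  set a := finrank K S with ha
  set b := finrank K (Vinv (2 * g) (Nf f) (Ef f)) with hb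
  let bS : Basis (Fin a) K S := finBasis K S
  let bV : Basis (Fin b) K (Vinv (2 * g) (Nf f) (Ef f)) := finBasis K _
  have hy : ∀ i : Fin a, ∃ y ∈ Vim (2 * g) (Nf f) (Ef f), Nf f 0 y = bS i := by
    intro i
    exact (Submodule.mem_map).1 (bS i).2
  choose y hyV hy0 using hy
  let e : Fin a × (Fin g ⊕ Fin g) → (Fin d → K) := fun p => ub g (ww (Nf f) (y p.1)) p.2
  let c : Fin b → (Fin d → K) := fun j => (bV j : Fin d → K)
  -- the key independence
  have key : ∀ s : Fin a × (Fin g ⊕ Fin g) → K,
      ∑ p, s p • e p ∈ Vinv (2 * g) (Nf f) (Ef f) → s = 0 := by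
    intro s hs
    let Y : Fin g ⊕ Fin g → (Fin d → K) := fun k => ∑ i, s (i, k) • y i
    have hY : ∀ k, Y k ∈ Vim (2 * g) (Nf f) (Ef f) := fun k =>
      Submodule.sum_mem _ fun i _ => Submodule.smul_mem _ _ (hyV i)
    have e1 : ∑ p, s p • e p = ∑ k, ub g (ww (Nf f) (Y k)) k := by
      rw [Fintype.sum_prod_type, Finset.sum_comm]
      apply Finset.sum_congr rfl
      intro k _
      rw [← ubL_apply, map_sum]
      apply Finset.sum_congr rfl
      intro i _
      rw [map_smul, ubL_apply]
    rw [e1] at hs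
    have h0 := N0_zero (by omega) r hz Y hY hs
    funext p
    obtain ⟨i, k⟩ := p
    have h1 := h0 k
    have h2 : ∑ i, s (i, k) • bS i = 0 := by
      apply Subtype.ext
      rw [Submodule.coe_sum, Submodule.coe_zero, ← h1, map_sum]
      apply Finset.sum_congr rfl
      intro i _
      rw [Submodule.coe_smul, map_smul, hy0]
    exact (Fintype.linearIndependent_iff.1 bS.linearIndependent) (fun i => s (i, k)) h2 i
  have hli : LinearIndependent K (Sum.elim e c) := by
    apply LinearIndependent.sum_type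
    · rw [Fintype.linearIndependent_iff]
      intro s hs p
      have h1 := key s (by rw [hs]; exact Submodule.zero_mem _)
      rw [h1]; rfl
    · exact bV.linearIndependent.map' (Submodule.subtype _) (Submodule.ker_subtype _)
    · rw [Submodule.disjoint_def]
      intro x hx1 hx2
      obtain ⟨s, rfl⟩ := (Submodule.mem_span_range_iff_exists_fun K).1 hx1
      have h1 : ∑ p, s p • e p ∈ Vinv (2 * g) (Nf f) (Ef f) := by
        refine Submodule.span_le.2 ?_ hx2
        rintro _ ⟨j, rfl⟩
        exact (bV j).2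
      rw [key s h1]
      simp
  have hsp : ⊤ ≤ Submodule.span K (Set.range (Sum.elim e c)) := by
    intro v _
    obtain ⟨w, hw, h1⟩ := decompf hd f hK v
    have hW : WW (2 * g) (Nf f) (Ef f) ≤ Submodule.span K (Set.range (Sum.elim e c)) := by
      apply Submodule.span_le.2
      rintro _ ⟨y', hy', j, hj, rfl⟩
      have h2 : Nf f 0 y' ∈ S := Submodule.mem_map_of_mem hy'
      have h3 := bS.sum_repr ⟨_, h2⟩
      have h4 : Nf f 0 y' = Nf f 0 (∑ i, bS.repr ⟨_, h2⟩ i • y i) := by
        have h5 := congrArg Subtype.val h3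
        rw [Submodule.coe_sum] at h5
        rw [map_sum]
        refine h5.symm.trans ?_
        apply Finset.sum_congr rfl
        intro i _
        rw [Submodule.coe_smul, map_smul, hy0]
      rw [SetLike.mem_coe, ww_eq_of_zero f h4, ← wwL_apply, map_sum]
      apply Submodule.sum_mem
      intro i _
      rw [map_smul, wwL_apply]
      apply Submodule.smul_mem
      refine Submodule.span_mono ?_ (ww_span (y i) hj)
      rintro _ ⟨k, rfl⟩
      exact ⟨Sum.inl (i, k), rfl⟩
    have hV : Vinv (2 * g) (Nf f) (Ef f) ≤ Submodule.span K (Set.range (Sum.elim e c)) := by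
      intro x hx
      have h3 := congrArg Subtype.val (bV.sum_repr ⟨x, hx⟩)
      rw [Submodule.coe_sum] at h3
      have h3' : ∑ i, ((bV.repr ⟨x, hx⟩ i • bV i : Vinv (2 * g) (Nf f) (Ef f)) : Fin d → K) = x :=
        h3
      rw [← h3']
      apply Submodule.sum_mem
      intro i _
      rw [Submodule.coe_smul]
      apply Submodule.smul_mem
      exact Submodule.subset_span ⟨Sum.inr i, rfl⟩
    have h2 := Submodule.add_mem _ (hW hw) (hV h1)
    rwa [add_sub_cancel] at h2
  refine ⟨a, b, Basis.mk hli hsp, ?_⟩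
  intro φ hφ
  have hB : ∀ p, (Basis.mk hli hsp) p = Sum.elim e c p := fun p => Basis.mk_apply _ _ _
  refine ⟨?_, ?_⟩
  · intro i y'
    have hbot : Invariant f (⊥ : Submodule K (Fin d → K)) := by
      intro x _ v hv
      rw [Submodule.mem_bot] at hv ⊢
      rw [hv, ← rho_apply, map_zero]
    have rr : RRel (2 * g) (fun j => rho f (tt g j) - 1) (rho f (AA g 1) - 1) ⊥
        (ww (Nf f) (y i)) := rr_bot r hn (hyV i) (hz _ (hyV i))
    obtain ⟨φ', h1, h2⟩ := equiv_all hd f (AA_twist (by omega)) hbot rr _ hφ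
    have h3 := h2 y'
    rw [Submodule.mem_bot, sub_eq_zero, rho_apply, hc_class h1 y'] at h3
    have e1 : (fun k => (Basis.mk hli hsp) (Sum.inl (i, k))) = ub g (ww (Nf f) (y i)) := by
      funext k
      rw [hB]
      rfl
    rw [e1]
    exact h3
  · intro j
    rw [hB, ← rho_apply]
    exact fixf hd f _ hφ _ (bV j).2

end

end Pool.Agent.E8helper34.MC
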