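import Pool.Agent.E8helper34.MC.Lin
import Pool.Agent.E8helper34.MC.RelZ

set_option autoImplicit false

/-! The extension of the homology by a trivial module splits. -/

namespace Pool.Agent.E8helper34.MC

open Pool.Agent.H29R2.MG Pool.Agent.TH35.MG Pool.Agent.R352.MG Pool.Agent.R665.MGR

section nrel
variable {K V : Type*} [Field K] [AddCommGroup V] [Module K V]
  {n : ℕ} {N : ℕ → Module.End K V} {E : Module.End K V}

theorem yy_mem {y : V} (hy : y ∈ Vim n N E) : ∀ j ≤ n, yy N y j ∈ Vim n N E := by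
  intro j
  cases j with
  | zero => intro _; exact hy
  | succ j => intro hj; exact Submodule.neg_mem _ (N_mem_Vim (by omega) _)

theorem ww_down (r : NRel n N E) (hn : 6 ≤ n) {y : V} (hy : y ∈ Vim n N E) {j : ℕ}
    (hj : j + 1 < n) : N j (ww N y (j + 1)) = ww N y j := by
  have h1 := X_kill r hn hj (yy_mem hy j (by omega))
  have e1 : N j (ww N y (j + 1)) = - N j (N (j + 1) (N j (yy N y j))) := by
    have : ww N y (j + 1) = N (j + 1) (- N j (yy N y j)) := rfl
    rw [this, map_neg, map_neg]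
  rw [e1]
  exact (eq_neg_of_add_eq_zero_left h1).symm

theorem ww_far (r : NRel n N E) (y : V) {i j : ℕ} (hi : i < n) (hj : j < n) (h1 : i ≠ j + 1)
    (h2 : j ≠ i + 1) : N i (ww N y j) = 0 := by
  rcases lt_trichotomy i j with h3 | h3 | h3
  · exact r.far' i j (by omega) hj _
  · subst h3; exact r.sq i hi _
  · exact r.far j i (by omega) hi _

theorem ww_Efar (r : NRel n N E) (y : V) {j : ℕ} (hj : j < n) (h3 : j ≠ 3) :
    E (ww N y j) = 0 := r.farE j hj h3 _

/-- the defect -/
def zz (N : ℕ → Module.End K V) (E : Module.End K V) (y : V) : V :=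
  E (ww N y 3) - (ww N y 0 + ww N y 2)

theorem zz_mem (r : NRel n N E) (hn : 6 ≤ n) {y : V} (hy : y ∈ Vim n N E) :
    zz N E y ∈ Vinv n N E := (rrel r hn hy).E3

theorem us_of {T : ℕ → Module.End K V} {E : Module.End K V}
    (r : NRel n (fun j => T j - 1) (E - 1)) (hn : 6 ≤ n) {y : V}
    (hy : y ∈ Vim n (fun j => T j - 1) (E - 1)) :
    US n T E (ww (fun j => T j - 1) y) (zz (fun j => T j - 1) (E - 1) y) where
  up := by
    intro j _
    have h := ww_succ (N := fun j => T j - 1) y j
    have h2 : T (j + 1) (ww (fun j => T j - 1) y j) - ww (fun j => T j - 1) y j =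
      - ww (fun j => T j - 1) y (j + 1) := h
    rw [sub_eq_iff_eq_add] at h2
    rw [h2]
    abel
  down := by
    intro j hj
    have h := ww_down r hn hy hj
    have h2 : T j (ww (fun j => T j - 1) y (j + 1)) - ww (fun j => T j - 1) y (j + 1) =
      ww (fun j => T j - 1) y j := h
    rw [sub_eq_iff_eq_add] at h2
    rw [h2]
    abel
  far := by
    intro i hi j hj h1 h2
    exact sub_eq_zero.1 (ww_far r y hi hj h1 h2)
  E3 := by
    have h : (E - 1) (ww (fun j => T j - 1) y 3) = E (ww (fun j => T j - 1) y 3) -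
      ww (fun j => T j - 1) y 3 := rfl
    unfold zz
    rw [h]
    abel
  Ef := fun j hj h3 => sub_eq_zero.1 (ww_Efar r y hj h3)
  Tz := fun j hj => sub_eq_zero.1 ((mem_Vinv.1 (zz_mem r hn hy)).1 j hj)
  Ez := sub_eq_zero.1 (mem_Vinv.1 (zz_mem r hn hy)).2

end nrel

section
universe u
variable {g d : ℕ} {K : Type u} [Field K]

/-- the operators `t_j - 1` -/
noncomputable def Nf (f : Mod g →* Matrix.GeneralLinearGroup (Fin d) K) (j : ℕ) :
    Module.End K (Fin d → K) := rho f (tt g j) - 1

/-- the operator `e - 1` -/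
noncomputable def Ef (f : Mod g →* Matrix.GeneralLinearGroup (Fin d) K) :
    Module.End K (Fin d → K) := rho f (AA g 1) - 1

variable (hd : d < (g - 5).choose 2) (f : Mod g →* Matrix.GeneralLinearGroup (Fin d) K)

include hd in
theorem relf : NRel (2 * g) (Nf f) (Ef f) :=
  rel hd f (AA_twist (by have := seven_le hd; omega))

theorem rho_inj (x : Mod g) : Function.Injective (rho f x) := by
  intro v v' h
  have h1 := congrArg (rho f x⁻¹) h
  rw [← Module.End.mul_apply, ← Module.End.mul_apply, ← map_mul, inv_mul_cancel, map_one,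
    Module.End.one_apply, Module.End.one_apply] at h1
  exact h1

theorem rho_mul_apply (x y : Mod g) (v : Fin d → K) :
    rho f (x * y) v = rho f x (rho f y v) := by
  rw [map_mul, Module.End.mul_apply]

include hd in
theorem usf {y : Fin d → K} (hy : y ∈ Vim (2 * g) (Nf f) (Ef f)) :
    US (2 * g) (fun j => rho f (tt g j)) (rho f (AA g 1)) (ww (Nf f) y) (zz (Nf f) (Ef f) y) :=
  us_of (relf hd f) (by have := seven_le hd; omega) hy

include hd in
/-- the action of all the twists about `a_m` -/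
theorem all_TA {y : Fin d → K} (hy : y ∈ Vim (2 * g) (Nf f) (Ef f)) :
    ∀ m < g, TA (2 * g) (ww (Nf f) y) (zz (Nf f) (Ef f) y) m (rho f (AA g m)) := by
  have hg := seven_le hd
  have u := usf hd f hy
  intro m
  induction m using Nat.strong_induction_on with
  | _ m ih =>
    intro hm
    rcases Nat.lt_or_ge m 2 with h | h
    · interval_cases m
      · rw [← tt_zero' (by omega)]
        refine ⟨?_, ?_, u.Tz 0 (by omega)⟩
        · have h1 := u.down 0 (by omega)
          rw [h1]
          simp [uu]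
        · intro j hj hne
          exact u.far 0 (by omega) j hj (by omega) (by omega)
      · refine ⟨?_, ?_, u.Ez⟩
        · have h1 := u.E3
          rw [h1]
          simp [uu]
        · intro j hj hne
          exact u.Ef j hj (by omega)
    · obtain ⟨p, rfl⟩ : ∃ p, m = p + 2 := ⟨m - 2, by omega⟩
      refine TA_step u (p := p) (by omega) (by omega) (ih p (by omega) (by omega))
        (ih (p + 1) (by omega) (by omega)) (fun j _ => rho_inj f _) (rho_inj f _) ?_
      intro v
      have h1 := congrArg (fun x => rho f x v) (relZ hm)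
      simp only [Zw, rho_mul_apply] at h1
      exact h1

/-- the operator of the hyperelliptic involution -/
noncomputable def Jf (f : Mod g →* Matrix.GeneralLinearGroup (Fin d) K) :
    Module.End K (Fin d → K) := rho f (hyp g)

theorem J_J (v : Fin d → K) : Jf f (Jf f v) = v := by
  unfold Jf
  rw [← rho_mul_apply, hyp_mul_self, map_one, Module.End.one_apply]

theorem J_N {j : ℕ} (hj : j < 2 * g) (v : Fin d → K) : Jf f (Nf f j v) = Nf f j (Jf f v) := by
  unfold Jf Nf
  rw [LinearMap.sub_apply, LinearMap.sub_apply, map_sub, ← rho_mul_apply, ← rho_mul_apply,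
    hyp_tt hj]
  rfl

theorem J_yy (y : Fin d → K) {j : ℕ} (hj : j ≤ 2 * g) :
    Jf f (yy (Nf f) y j) = yy (Nf f) (Jf f y) j := by
  induction j with
  | zero => rfl
  | succ j ih =>
    show Jf f (- Nf f j (yy (Nf f) y j)) = - Nf f j (yy (Nf f) (Jf f y) j)
    rw [map_neg, J_N f (by omega), ih (by omega)]

theorem J_ww (y : Fin d → K) {j : ℕ} (hj : j < 2 * g) :
    Jf f (ww (Nf f) y j) = ww (Nf f) (Jf f y) j := by
  unfold ww
  rw [J_N f hj, J_yy f y (by omega)]

theorem J_uu (y : Fin d → K) {m : ℕ} (hm : 2 * m < 2 * g) :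
    Jf f (uu (ww (Nf f) y) m) = uu (ww (Nf f) (Jf f y)) m := by
  induction m with
  | zero => exact J_ww f y (by omega)
  | succ m ih =>
    show Jf f (uu (ww (Nf f) y) m + ww (Nf f) y (2 * m + 2)) = _ + _
    rw [map_add, ih (by omega), J_ww f y (by omega)]

include hd in
/-- the conjugate of `e` by the involution is in Humphries' group -/
theorem conj_mem : hyp g * AA g 1 * hyp g ∈ Humphries g := by
  have hg := seven_le hd
  have h1 := four_mod (g := g) (by omega)
  have h2 : hyp g * AA g 1 * hyp g = (AA g 1)⁻¹ *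
      (tt g 0 * tt g 1 * tt g 2 * (tt g 0 * tt g 1 * tt g 2) *
        (tt g 0 * tt g 1 * tt g 2 * (tt g 0 * tt g 1 * tt g 2))) := by
    rw [h1]; group
  rw [h2]
  have t0 := tt_mem (g := g) (j := 0) (by omega)
  have t1 := tt_mem (g := g) (j := 1) (by omega)
  have t2 := tt_mem (g := g) (j := 2) (by omega)
  have t3 := mul_mem (mul_mem t0 t1) t2
  exact mul_mem (inv_mem (e_mem (AA_twist (by omega)))) (mul_mem (mul_mem t3 t3) (mul_mem t3 t3))

include hd in
theorem fixf : ∀ x ∈ Humphries g, ∀ v ∈ Vinv (2 * g) (Nf f) (Ef f), rho f x v = v :=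
  fix_Vinv (seven_le hd) f (AA_twist (by have := seven_le hd; omega))

include hd in
/-- the action of the involution on the defect -/
theorem J_zz {y : Fin d → K} (hy : y ∈ Vim (2 * g) (Nf f) (Ef f))
    (hJ : Jf f y ∈ Vim (2 * g) (Nf f) (Ef f)) :
    Jf f (zz (Nf f) (Ef f) y) = - zz (Nf f) (Ef f) (Jf f y) := by
  have hg := seven_le hd
  have u := usf hd f hy
  have u' := usf hd f hJ
  have hz := zz_mem (relf hd f) (by omega) hy
  have h1 := fixf hd f _ (conj_mem hd) _ hz
  have h4 := congrArg (fun x => rho f x (ww (Nf f) (Jf f y) 3)) (four_mod (g := g) (by omega))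
  simp only [rho_mul_apply] at h4 h1
  change Jf f (rho f (AA g 1) (Jf f _)) = _ at h1
  change _ = rho f (AA g 1) (Jf f (rho f (AA g 1) (Jf f _))) at h4
  -- the right side
  have e1 : Jf f (ww (Nf f) (Jf f y) 3) = ww (Nf f) y 3 := by
    rw [J_ww f _ (by omega), J_J]
  have e2 : rho f (AA g 1) (Jf f (zz (Nf f) (Ef f) y)) = Jf f (zz (Nf f) (Ef f) y) := by
    have h2 := congrArg (Jf f) h1
    rw [J_J] at h2
    exact h2
  rw [e1, u.E3] at h4
  simp only [map_add] at h4
  rw [J_ww f y (j := 3) (by omega), J_ww f y (j := 0) (by omega), J_ww f y (j := 2) (by omega),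
    u'.E3, u'.Ef 0 (by omega) (by omega), u'.Ef 2 (by omega) (by omega), e2] at h4
  -- the left side
  have a03 := u'.far 0 (by omega) 3 (by omega) (by omega) (by omega)
  have a13 := u'.far 1 (by omega) 3 (by omega) (by omega) (by omega)
  have a23 := u'.down 2 (by omega)
  have a00 := u'.far 0 (by omega) 0 (by omega) (by omega) (by omega)
  have a10 := u'.up 0 (by omega)
  have a20 := u'.far 2 (by omega) 0 (by omega) (by omega) (by omega)
  have a01 := u'.down 0 (by omega)
  have a11 := u'.far 1 (by omega) 1 (by omega) (by omega) (by omega)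
  have a21 := u'.up 1 (by omega)
  have a02 := u'.far 0 (by omega) 2 (by omega) (by omega) (by omega)
  have a12 := u'.down 1 (by omega)
  have a22 := u'.far 2 (by omega) 2 (by omega) (by omega) (by omega)
  simp only [zero_add, show 1 + 1 = 2 from rfl, show 2 + 1 = 3 from rfl] at *
  simp only [a03, a13, a23, a00, a10, a20, a01, a11, a21, a02, a12, a22, map_add, map_sub] at h4
  generalize ww (Nf f) (Jf f y) 0 = w0 at *
  generalize ww (Nf f) (Jf f y) 1 = w1 at *
  generalize ww (Nf f) (Jf f y) 2 = w2 at *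
  generalize ww (Nf f) (Jf f y) 3 = w3 at *
  generalize zz (Nf f) (Ef f) (Jf f y) = z' at *
  generalize Jf f (zz (Nf f) (Ef f) y) = z at *
  have h5 : z + z' = 0 := by
    linear_combination (exp := 1) -h4
  exact eq_neg_of_add_eq_zero_left h5

include hd in
theorem J_last {y : Fin d → K} (hy : y ∈ Vim (2 * g) (Nf f) (Ef f))
    (hJ : Jf f y ∈ Vim (2 * g) (Nf f) (Ef f)) :
    ((g - 1 : ℕ) : ℤ) • Jf f (zz (Nf f) (Ef f) y) =
      ((g - 1 : ℕ) : ℤ) • zz (Nf f) (Ef f) (Jf f y) := by
  have hg := seven_le hd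
  have a := all_TA hd f hy (g - 1) (by omega)
  have a' := all_TA hd f hJ (g - 1) (by omega)
  have h1 := congrArg (fun x => rho f x (ww (Nf f) y (2 * (g - 1) + 1)))
    (hyp_last (g := g) (by omega))
  simp only [rho_mul_apply] at h1
  change Jf f _ = rho f (AA g (g - 1)) (Jf f _) at h1
  rw [a.val, map_add, map_add, map_zsmul, J_ww f _ (by omega), J_uu f _ (by omega), a'.val] at h1
  have h2 := add_left_cancel h1
  exact add_left_cancel h2

include hd in
/-- the defect vanishes on the image of `t_1 - 1` -/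
theorem zz_N1 (hK : ((2 * g - 2 : ℕ) : K) ≠ 0) (v : Fin d → K) :
    zz (Nf f) (Ef f) (Nf f 1 v) = 0 := by
  have hg := seven_le hd
  have m1 : Nf f 1 v ∈ Vim (2 * g) (Nf f) (Ef f) := N_mem_Vim (by omega) _
  have m2 : Jf f (Nf f 1 v) ∈ Vim (2 * g) (Nf f) (Ef f) := by
    rw [J_N f (by omega)]
    exact N_mem_Vim (by omega) _
  have m3 : Jf f (Jf f (Nf f 1 v)) ∈ Vim (2 * g) (Nf f) (Ef f) := by rwa [J_J]
  have h1 := J_zz hd f m2 m3
  have h2 := J_last hd f m2 m3
  rw [J_J] at h1 h2
  rw [h1] at h2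
  have h3 : ((2 * g - 2 : ℕ) : K) • zz (Nf f) (Ef f) (Nf f 1 v) = 0 := by
    have e : ((2 * g - 2 : ℕ) : K) = (((g - 1 : ℕ) : ℤ) : K) + (((g - 1 : ℕ) : ℤ) : K) := by
      have : 2 * g - 2 = (g - 1) + (g - 1) := by omega
      rw [this]
      push_cast
      ring
    rw [e, add_smul, Int.cast_smul_eq_zsmul]
    rw [smul_neg] at h2
    exact neg_eq_iff_add_eq_zero.1 h2
  exact (smul_eq_zero.1 h3).resolve_left hK

theorem ww_eq_of_zero {y y' : Fin d → K} (h : Nf f 0 y = Nf f 0 y') (j : ℕ) :
    ww (Nf f) y j = ww (Nf f) y' j := by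
  induction j with
  | zero => exact h
  | succ j ih =>
    have h1 := ww_succ (N := Nf f) y j
    have h2 := ww_succ (N := Nf f) y' j
    rw [ih, h2] at h1
    exact (neg_injective h1).symm

include hd in
/-- the defect vanishes -/
theorem zz_zero (hK : ((2 * g - 2 : ℕ) : K) ≠ 0) {y : Fin d → K}
    (hy : y ∈ Vim (2 * g) (Nf f) (Ef f)) : zz (Nf f) (Ef f) y = 0 := by
  have hg := seven_le hd
  have h1 := X_kill (relf hd f) (by omega) (j := 0) (by omega) hy
  have h2 : Nf f 0 y = Nf f 0 (Nf f 1 (- Nf f 0 y)) := by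
    rw [map_neg, map_neg]
    exact eq_neg_of_add_eq_zero_left h1
  have h3 : zz (Nf f) (Ef f) y = zz (Nf f) (Ef f) (Nf f 1 (- Nf f 0 y)) := by
    unfold zz
    rw [ww_eq_of_zero f h2, ww_eq_of_zero f h2, ww_eq_of_zero f h2]
  rw [h3]
  exact zz_N1 hd f hK _

end

end Pool.Agent.E8helper34.MC
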