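import Pool.Agent.E8helper34.MC.S3

set_option autoImplicit false

/-! Duality and the decomposition of the representation. -/

namespace Pool.Agent.E8helper34.MC

open Pool.Agent.H29R2.MG Pool.Agent.TH35.MG Pool.Agent.R352.MG Pool.Agent.R665.MGR Matrix

section
universe u
variable {g d : ℕ} {K : Type u} [Field K]

/-- the contragredient representation -/
noncomputable def dualRep (f : Mod g →* Matrix.GeneralLinearGroup (Fin d) K) :
    Mod g →* Matrix.GeneralLinearGroup (Fin d) K where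
  toFun x := ⟨(((f x)⁻¹ : Matrix.GeneralLinearGroup (Fin d) K) : Matrix (Fin d) (Fin d) K)ᵀ,
    ((f x) : Matrix (Fin d) (Fin d) K)ᵀ,
    by rw [← transpose_mul, Units.mul_inv, transpose_one],
    by rw [← transpose_mul, Units.inv_mul, transpose_one]⟩
  map_one' := by
    apply Units.ext
    show (((f 1)⁻¹ : Matrix.GeneralLinearGroup (Fin d) K) : Matrix (Fin d) (Fin d) K)ᵀ = 1
    rw [map_one, inv_one, Units.val_one, transpose_one]
  map_mul' x y := by
    apply Units.ext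
    show (((f (x * y))⁻¹ : Matrix.GeneralLinearGroup (Fin d) K) : Matrix (Fin d) (Fin d) K)ᵀ =
      (((f x)⁻¹ : Matrix.GeneralLinearGroup (Fin d) K) : Matrix (Fin d) (Fin d) K)ᵀ *
      (((f y)⁻¹ : Matrix.GeneralLinearGroup (Fin d) K) : Matrix (Fin d) (Fin d) K)ᵀ
    rw [map_mul, _root_.mul_inv_rev, Units.val_mul, transpose_mul]

theorem dualRep_val (f : Mod g →* Matrix.GeneralLinearGroup (Fin d) K) (x : Mod g) :
    (dualRep f x : Matrix (Fin d) (Fin d) K) =
      (((f x)⁻¹ : Matrix.GeneralLinearGroup (Fin d) K) : Matrix (Fin d) (Fin d) K)ᵀ := rfl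

theorem dual_sub (f : Mod g →* Matrix.GeneralLinearGroup (Fin d) K) (x : Mod g)
    (h : ((f x : Matrix (Fin d) (Fin d) K) - 1) * ((f x : Matrix (Fin d) (Fin d) K) - 1) = 0) :
    (dualRep f x : Matrix (Fin d) (Fin d) K) - 1 = - ((f x : Matrix (Fin d) (Fin d) K) - 1)ᵀ := by
  rw [dualRep_val]
  have h1 : (((f x)⁻¹ : Matrix.GeneralLinearGroup (Fin d) K) : Matrix (Fin d) (Fin d) K) =
      1 - ((f x : Matrix (Fin d) (Fin d) K) - 1) := by
    have h2 : (f x : Matrix (Fin d) (Fin d) K) *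
        (1 - ((f x : Matrix (Fin d) (Fin d) K) - 1)) = 1 := by
      have e : (f x : Matrix (Fin d) (Fin d) K) *
        (1 - ((f x : Matrix (Fin d) (Fin d) K) - 1)) =
        1 - ((f x : Matrix (Fin d) (Fin d) K) - 1) * ((f x : Matrix (Fin d) (Fin d) K) - 1) := by
        noncomm_ring
      rw [e, h, sub_zero]
    calc (((f x)⁻¹ : Matrix.GeneralLinearGroup (Fin d) K) : Matrix (Fin d) (Fin d) K)
        = (((f x)⁻¹ : Matrix.GeneralLinearGroup (Fin d) K) : Matrix (Fin d) (Fin d) K) *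
          ((f x : Matrix (Fin d) (Fin d) K) *
            (1 - ((f x : Matrix (Fin d) (Fin d) K) - 1))) := by rw [h2, mul_one]
      _ = _ := by rw [← mul_assoc, Units.inv_mul, one_mul]
  rw [h1, transpose_sub, transpose_one]
  abel

/-- the matrix `f(t_j) - 1` -/
def nM (f : Mod g →* Matrix.GeneralLinearGroup (Fin d) K) (j : ℕ) : Matrix (Fin d) (Fin d) K :=
  (f (tt g j) : Matrix (Fin d) (Fin d) K) - 1

/-- the matrix `f(e) - 1` -/
def eM (f : Mod g →* Matrix.GeneralLinearGroup (Fin d) K) : Matrix (Fin d) (Fin d) K :=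
  (f (AA g 1) : Matrix (Fin d) (Fin d) K) - 1

theorem Nf_eq (f : Mod g →* Matrix.GeneralLinearGroup (Fin d) K) (j : ℕ) :
    Nf f j = Matrix.toLinAlgEquiv' (nM f j) := rho_sub f _

theorem Ef_eq (f : Mod g →* Matrix.GeneralLinearGroup (Fin d) K) :
    Ef f = Matrix.toLinAlgEquiv' (eM f) := rho_sub f _

variable (hd : d < (g - 5).choose 2) (f : Mod g →* Matrix.GeneralLinearGroup (Fin d) K)

include hd in
theorem nM_sq {j : ℕ} (hj : j < 2 * g) : nM f j * nM f j = 0 := by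
  apply (Matrix.toLinAlgEquiv' (R := K) (n := Fin d)).injective
  rw [map_mul, map_zero, ← Nf_eq]
  apply LinearMap.ext
  intro v
  exact (relf hd f).sq j hj v

include hd in
theorem eM_sq : eM f * eM f = 0 := by
  apply (Matrix.toLinAlgEquiv' (R := K) (n := Fin d)).injective
  rw [map_mul, map_zero, ← Ef_eq]
  apply LinearMap.ext
  intro v
  exact (relf hd f).sqE v

include hd in
theorem dual_nM {j : ℕ} (hj : j < 2 * g) : nM (dualRep f) j = - (nM f j)ᵀ :=
  dual_sub f _ (nM_sq hd f hj)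

include hd in
theorem dual_eM : eM (dualRep f) = - (eM f)ᵀ := dual_sub f _ (eM_sq hd f)

include hd in
theorem S1vec (hK : ((2 * g - 2 : ℕ) : K) ≠ 0) {y : Fin d → K}
    (hy : y ∈ Vim (2 * g) (Nf f) (Ef f)) :
    Ef f (Nf f 3 (Nf f 2 (Nf f 1 (Nf f 0 y)))) + Nf f 0 y + Nf f 2 (Nf f 1 (Nf f 0 y)) = 0 := by
  have h := zz_zero hd f hK hy
  unfold zz at h
  have e0 : ww (Nf f) y 0 = Nf f 0 y := rfl
  have e2 : ww (Nf f) y 2 = Nf f 2 (- Nf f 1 (- Nf f 0 y)) := rfl
  have e3 : ww (Nf f) y 3 = Nf f 3 (- Nf f 2 (- Nf f 1 (- Nf f 0 y))) := rfl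
  rw [e0, e2, e3] at h
  simp only [map_neg, neg_neg] at h
  have h2 := neg_eq_zero.2 h
  rw [← h2]
  abel

include hd in
theorem S1mat (hK : ((2 * g - 2 : ℕ) : K) ≠ 0) (X : Matrix (Fin d) (Fin d) K)
    (hX : ∀ v, Matrix.toLinAlgEquiv' X v ∈ Vim (2 * g) (Nf f) (Ef f)) :
    (eM f * (nM f 3 * (nM f 2 * (nM f 1 * nM f 0))) + nM f 0 +
      nM f 2 * (nM f 1 * nM f 0)) * X = 0 := by
  apply (Matrix.toLinAlgEquiv' (R := K) (n := Fin d)).injective
  simp only [map_mul, map_add, map_zero, ← Nf_eq, ← Ef_eq]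
  apply LinearMap.ext
  intro v
  exact S1vec hd f hK (hX v)

include hd in
/-- the dual statement -/
theorem S2 (hK : ((2 * g - 2 : ℕ) : K) ≠ 0) (v : Fin d → K) :
    Nf f 0 (Nf f 1 (Nf f 2 (Nf f 3 (Ef f v)))) + Nf f 0 v + Nf f 0 (Nf f 1 (Nf f 2 v)) ∈
      Vinv (2 * g) (Nf f) (Ef f) := by
  have hg := seven_le hd
  have key : ∀ X : Matrix (Fin d) (Fin d) K,
      (∀ v, Matrix.toLinAlgEquiv' (-Xᵀ) v ∈ Vim (2 * g) (Nf (dualRep f)) (Ef (dualRep f))) →
      X * (nM f 0 * (nM f 1 * (nM f 2 * (nM f 3 * eM f))) + nM f 0 +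
        nM f 0 * (nM f 1 * nM f 2)) = 0 := by
    intro X hX
    have h1 := S1mat hd (dualRep f) hK _ hX
    rw [dual_eM hd f, dual_nM hd f (j := 0) (by omega), dual_nM hd f (j := 1) (by omega),
      dual_nM hd f (j := 2) (by omega), dual_nM hd f (j := 3) (by omega)] at h1
    apply transpose_injective
    simp only [transpose_mul, transpose_add, transpose_zero]
    rw [← h1]
    noncomm_ring
  rw [mem_Vinv]
  refine ⟨?_, ?_⟩
  · intro j hj
    have h1 := key (nM f j) (by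
      intro v
      rw [← dual_nM hd f hj, ← Nf_eq]
      exact N_mem_Vim hj v)
    have h2 := congrArg (Matrix.toLinAlgEquiv' (R := K) (n := Fin d)) h1
    simp only [map_mul, map_add, map_zero, ← Nf_eq, ← Ef_eq] at h2
    exact LinearMap.congr_fun h2 v
  · have h1 := key (eM f) (by
      intro v
      rw [← dual_eM hd f, ← Ef_eq]
      exact E_mem_Vim v)
    have h2 := congrArg (Matrix.toLinAlgEquiv' (R := K) (n := Fin d)) h1
    simp only [map_mul, map_add, map_zero, ← Nf_eq, ← Ef_eq] at h2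
    exact LinearMap.congr_fun h2 v

include hd in
/-- the decomposition -/
theorem decompf (hK : ((2 * g - 2 : ℕ) : K) ≠ 0) (v : Fin d → K) :
    ∃ w ∈ WW (2 * g) (Nf f) (Ef f), v - w ∈ Vinv (2 * g) (Nf f) (Ef f) :=
  decomp (by have := seven_le hd; omega) (relf hd f) (fun _ hy => zz_zero hd f hK hy)
    (fun v => S2 hd f hK v) (fun _ h1 h2 => perf hd f h1 h2) v

end

end Pool.Agent.E8helper34.MC
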