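import Pool.Agent.E8helper34.MC.YC
import Pool.Agent.R665.MGR.Rep

set_option autoImplicit false

/-! The twists `A_m` and the hyperelliptic involution. -/

namespace Pool.Agent.E8helper34.MC

open Pool.Agent.H29R2.MG Pool.Agent.TH35.MG Pool.Agent.R352.MG Pool.Agent.R665.MGR

section
variable {g : ℕ}

/-- the endomorphism `b_m ↦ b_m a_m⁻¹` of the free group -/
def hTi (g m : ℕ) : FreeGroup (Fin g ⊕ Fin g) →* FreeGroup (Fin g ⊕ Fin g) :=
  FreeGroup.lift (Sum.elim (fun i => fa i)
    (fun i => if (i : ℕ) = m then fb i * (fa i)⁻¹ else fb i))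

theorem hTi_fa (m : ℕ) (i : Fin g) : hTi g m (fa i) = fa i := by
  conv_lhs => rw [fa]
  simp [hTi]

theorem hTi_fb (m : ℕ) (i : Fin g) :
    hTi g m (fb i) = if (i : ℕ) = m then fb i * (fa i)⁻¹ else fb i := by
  conv_lhs => rw [fb]
  simp [hTi]

theorem relator_fix (φ : FreeGroup (Fin g ⊕ Fin g) →* FreeGroup (Fin g ⊕ Fin g))
    (h : ∀ i : Fin g, φ (fa i) * φ (fb i) * (φ (fa i))⁻¹ * (φ (fb i))⁻¹ =
      fa i * fb i * (fa i)⁻¹ * (fb i)⁻¹) : φ (surfaceRelator g) = surfaceRelator g := by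
  unfold surfaceRelator
  rw [map_list_prod, List.map_ofFn]
  congr 2
  funext i
  simp only [Function.comp_apply, map_mul, map_inv]
  exact h i

theorem hT_relator (m : ℕ) : hT g m (surfaceRelator g) = surfaceRelator g := by
  apply relator_fix
  intro i
  rw [hT_fa, hT_fb]
  split_ifs
  · group
  · rfl

theorem hTi_relator (m : ℕ) : hTi g m (surfaceRelator g) = surfaceRelator g := by
  apply relator_fix
  intro i
  rw [hTi_fa, hTi_fb]
  split_ifs
  · group
  · rfl

theorem hT_hTi (m : ℕ) : (hT g m).comp (hTi g m) = MonoidHom.id _ := by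
  apply free_ext
  · intro i
    rw [MonoidHom.comp_apply, hTi_fa, hT_fa, MonoidHom.id_apply]
  · intro i
    rw [MonoidHom.comp_apply, hTi_fb, MonoidHom.id_apply]
    split_ifs with h
    · rw [map_mul, map_inv, hT_fa, hT_fb, if_pos h]
      group
    · rw [hT_fb, if_neg h]

theorem hTi_hT (m : ℕ) : (hTi g m).comp (hT g m) = MonoidHom.id _ := by
  apply free_ext
  · intro i
    rw [MonoidHom.comp_apply, hT_fa, hTi_fa, MonoidHom.id_apply]
  · intro i
    rw [MonoidHom.comp_apply, hT_fb, MonoidHom.id_apply]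
    split_ifs with h
    · rw [map_mul, hTi_fa, hTi_fb, if_pos h]
      group
    · rw [hTi_fb, if_neg h]

/-- the twist `b_m ↦ b_m a_m` -/
def tw (g m : ℕ) : MulAut (SurfaceGroup g) :=
  MonoidHom.toMulEquiv (dsc (hT g m) (hT_relator m)) (dsc (hTi g m) (hTi_relator m))
    (by
      refine MonoidHom.ext ?_
      intro y
      obtain ⟨x, rfl⟩ := mk_surjective g y
      rw [MonoidHom.comp_apply, dsc_mk, dsc_mk]
      have := DFunLike.congr_fun (hTi_hT (g := g) m) x
      rw [MonoidHom.comp_apply] at this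
      rw [this]
      rfl)
    (by
      refine MonoidHom.ext ?_
      intro y
      obtain ⟨x, rfl⟩ := mk_surjective g y
      rw [MonoidHom.comp_apply, dsc_mk, dsc_mk]
      have := DFunLike.congr_fun (hT_hTi (g := g) m) x
      rw [MonoidHom.comp_apply] at this
      rw [this]
      rfl)

theorem tw_mk (m : ℕ) (x : FreeGroup (Fin g ⊕ Fin g)) : tw g m (mk g x) = mk g (hT g m x) :=
  dsc_mk (hT g m) (hT_relator m) x

theorem tw_inv_mk (m : ℕ) (x : FreeGroup (Fin g ⊕ Fin g)) :
    (tw g m)⁻¹ (mk g x) = mk g (hTi g m x) :=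
  dsc_mk (hTi g m) (hTi_relator m) x

theorem tw_pres (m : Fin g) : PreservesForm (tw g m) := by
  apply pres _ (Pi.single (Sum.inl m) 1)
  · intro i
    rw [tw_mk, hT_fa, tv, form_inl, hc_fa]
    simp
  · intro i
    rw [tw_mk, hT_fb, tv, form_inr]
    by_cases h1 : (i : ℕ) = m
    · have h2 : i = m := Fin.ext h1
      subst h2
      rw [if_pos h1, map_mul, hc_mul, hc_fa, hc_fb]
      simp
    · have h2 : i ≠ m := fun e => h1 (by rw [e])
      rw [if_neg h1, hc_fb]
      simp [h2]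

/-- the mapping class of the twist about `a_m` -/
def AA (g m : ℕ) : Mod g := if h : m < g then classOf g ⟨tw g m, tw_pres ⟨m, h⟩⟩ else 1

theorem AA_lt {m : ℕ} (h : m < g) : AA g m = classOf g ⟨tw g m, tw_pres ⟨m, h⟩⟩ := dif_pos h

theorem AA_twist {m : ℕ} (h : m < g) : IsTwistAt g m (AA g m) := by
  refine ⟨_, (AA_lt h).symm, ?_⟩
  rintro (i | i)
  · show tw g m (mk g (fa i)) = gen (Sum.inl i)
    rw [tw_mk, hT_fa]
    rfl
  · show tw g m (mk g (fb i)) = if (i : ℕ) = m then _ else _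
    rw [tw_mk, hT_fb]
    split_ifs
    · rw [map_mul]; rfl
    · rfl

theorem twist_eq {m : ℕ} (h : m < g) {T : Mod g} (hT : IsTwistAt g m T) : T = AA g m := by
  obtain ⟨τ, rfl, h1⟩ := hT
  obtain ⟨τ', h2, h3⟩ := AA_twist h
  rw [← h2]
  congr 1
  exact aut_ext fun j => by rw [h1, h3]

theorem tt_zero' (h : 0 < g) : tt g 0 = AA g 0 := twist_eq h (tt_zero h)

theorem tw_sa (m k : ℕ) : tw g m (sa g k) = sa g k := by
  by_cases hk : k < g
  · have e1 : sa g k = mk g (fa ⟨k, hk⟩) := dif_pos hk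
    rw [e1, tw_mk, hT_fa]
  · have e1 : sa g k = 1 := dif_neg hk
    rw [e1, map_one]

theorem tw_sb (m k : ℕ) : tw g m (sb g k) = if k = m then sb g k * sa g k else sb g k := by
  by_cases hk : k < g
  · have e1 : sa g k = mk g (fa ⟨k, hk⟩) := dif_pos hk
    have e2 : sb g k = mk g (fb ⟨k, hk⟩) := dif_pos hk
    rw [e2, tw_mk, hT_fb]
    split_ifs
    · rw [map_mul, e1]
    · rfl
  · have e1 : sa g k = 1 := dif_neg hk
    have e2 : sb g k = 1 := dif_neg hk
    rw [e1, e2, map_one, mul_one]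
    simp

theorem tw_SC {m : ℕ} (k : ℕ) :
    tw g m (SC g k) = if k ≤ m then SC g k else SC g k * QQ (YY g) (2 * m + 1) := by
  induction k with
  | zero => rw [if_pos (by omega)]; exact map_one _
  | succ k ih =>
    show tw g m (sb g k * SC g k) = if _ then sb g k * SC g k else sb g k * SC g k * _
    rw [map_mul, ih, tw_sb]
    rcases lt_trichotomy k m with h | h | h
    · rw [if_neg (by omega), if_pos (by omega), if_pos (by omega)]
    · subst h
      rw [if_pos rfl, if_pos (by omega), if_neg (by omega)]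
      have h3 : QQ (YY g) (2 * k + 1) = YY g (2 * k) * QQ (YY g) (2 * k) := rfl
      rw [h3, ← SC_eq, YY_even]
      group
    · rw [if_neg (by omega), if_neg (by omega), if_neg (by omega)]
      group

/-- the action of the twist about `a_m` in the coordinates -/
theorem tw_YY {m : ℕ} (k : ℕ) : tw g m (YY g k) = if k ≤ 2 * m then YY g k else
    if k % 2 = 0 then (QQ (YY g) (2 * m + 1))⁻¹ * YY g k else
      YY g k * QQ (YY g) (2 * m + 1) := by
  rcases Nat.even_or_odd' k with ⟨i, rfl | rfl⟩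
  · rw [YY_even, map_mul, map_inv, tw_SC, tw_sa]
    by_cases h : i ≤ m
    · rw [if_pos h, if_pos (by omega)]
    · rw [if_neg h, if_neg (by omega), if_pos (by omega)]
      group
  · rw [YY_odd, map_mul, map_mul, map_inv, tw_SC, tw_sa, tw_sb]
    rcases lt_trichotomy i m with h | h | h
    · rw [if_pos (by omega : i ≤ m), if_neg (by omega), if_pos (by omega)]
    · subst h
      rw [if_pos rfl, if_pos le_rfl, if_neg (by omega), if_neg (by omega)]
      have h3 : QQ (YY g) (2 * i + 1) = YY g (2 * i) * QQ (YY g) (2 * i) := rfl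
      rw [h3, ← SC_eq, YY_even]
      group
    · rw [if_neg (by omega), if_neg (by omega), if_neg (by omega), if_neg (by omega)]
      group

/-! ### The hyperelliptic involution -/

/-- the hyperelliptic involution as an endomorphism -/
def iotaHom (g : ℕ) : SurfaceGroup g →* SurfaceGroup g :=
  homY g (fun k => (YY g k)⁻¹) (by rw [PQ_inv, QQ_inv, closed])

theorem iotaHom_YY {k : ℕ} (hk : k < 2 * g) : iotaHom g (YY g k) = (YY g k)⁻¹ := homY_YY _ hk

theorem iotaHom_sq : (iotaHom g).comp (iotaHom g) = MonoidHom.id _ := by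
  apply ext_Y
  intro k hk
  rw [MonoidHom.comp_apply, iotaHom_YY hk, map_inv, iotaHom_YY hk, inv_inv, MonoidHom.id_apply]

/-- the hyperelliptic involution -/
def iota (g : ℕ) : MulAut (SurfaceGroup g) :=
  MonoidHom.toMulEquiv (iotaHom g) (iotaHom g) iotaHom_sq iotaHom_sq

theorem iota_YY {k : ℕ} (hk : k < 2 * g) : iota g (YY g k) = (YY g k)⁻¹ := iotaHom_YY hk

theorem iota_iota (x : SurfaceGroup g) : iota g (iota g x) = x := DFunLike.congr_fun iotaHom_sq x

theorem hc_iota (x : SurfaceGroup g) : homologyClass (iota g x) = - homologyClass x := by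
  have h : (homologyHom g).comp (iotaHom g) = (homologyHom g)⁻¹ := by
    apply ext_Y
    intro k hk
    rw [MonoidHom.comp_apply, iotaHom_YY hk, map_inv, MonoidHom.inv_apply]
  have h2 := DFunLike.congr_fun h x
  rw [MonoidHom.comp_apply, MonoidHom.inv_apply] at h2
  exact congrArg Multiplicative.toAdd h2

theorem iota_pres : PreservesForm (iota g) := by
  intro x y
  rw [hc_iota, hc_iota, form_neg_left, form_swap, form_neg_left, neg_neg]
  rw [form_swap, neg_neg]

/-- the class of the hyperelliptic involution -/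
def hyp (g : ℕ) : Mod g := classOf g ⟨iota g, iota_pres⟩

theorem mulAut_ext_Y {φ ψ : MulAut (SurfaceGroup g)} (h : ∀ k < 2 * g, φ (YY g k) = ψ (YY g k)) :
    φ = ψ := by
  have : φ.toMonoidHom = ψ.toMonoidHom := ext_Y h
  apply MulEquiv.ext
  intro x
  exact DFunLike.congr_fun this x

theorem iota_sv {j : ℕ} (hj : j < 2 * g) (h1 : 0 < j) :
    iota g * sv ⟨j, hj⟩ = sv ⟨j, hj⟩ * iota g := by
  apply mulAut_ext_Y
  intro k hk
  rw [MulAut.mul_apply, MulAut.mul_apply, iota_YY hk, map_inv, sv_YY hj h1]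
  split_ifs
  · rw [map_inv, iota_YY hj]
  · rw [map_mul, map_mul, iota_YY hj, iota_YY (by omega)]
    group
  · rw [iota_YY hk]

theorem iota_QQ {m : ℕ} (hm : m ≤ 2 * g) : iota g (QQ (YY g) m) = (PQ (YY g) m)⁻¹ := by
  have h1 : iota g (QQ (YY g) m) = QQ (fun i => iota g (YY g i)) m :=
    map_QQ (iota g).toMonoidHom _ _
  rw [h1, QQ_congr (fun i hi => iota_YY (by omega)), QQ_inv]

/-- conjugation of the twist about `a_m` by the hyperelliptic involution -/
theorem iota_tw {m : ℕ} (hm : m < g) {k : ℕ} (hk : k < 2 * g) :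
    (iota g * tw g m * iota g) (YY g k) = if k ≤ 2 * m then YY g k else
      if k % 2 = 0 then YY g k * (PQ (YY g) (2 * m + 1))⁻¹ else
        PQ (YY g) (2 * m + 1) * YY g k := by
  rw [MulAut.mul_apply, MulAut.mul_apply, iota_YY hk, map_inv, map_inv, tw_YY]
  split_ifs
  · rw [iota_YY hk, inv_inv]
  · rw [map_mul, map_inv, iota_YY hk, iota_QQ (by omega)]
    group
  · rw [map_mul, iota_YY hk, iota_QQ (by omega)]
    group

/-- the twist about `a_0` -/
theorem iota_tw_zero (hg : 0 < g) :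
    iota g * tw g 0 * iota g = MulAut.conj (YY g 0) * tw g 0 := by
  apply mulAut_ext_Y
  intro k hk
  have h1 : PQ (YY g) (2 * 0 + 1) = YY g 0 := one_mul _
  have h2 : QQ (YY g) (2 * 0 + 1) = YY g 0 := mul_one _
  rw [iota_tw hg hk, MulAut.mul_apply, MulAut.conj_apply, tw_YY, h1, h2]
  split_ifs with h3 h4
  · obtain rfl : k = 0 := by omega
    group
  · group
  · group

/-- the twist about `a_{g-1}` -/
theorem iota_tw_last (hg : 0 < g) :
    iota g * tw g (g - 1) * iota g = tw g (g - 1) := by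
  apply mulAut_ext_Y
  intro k hk
  rw [iota_tw (by omega) hk, tw_YY]
  split_ifs with h3 h4
  · rfl
  · omega
  · obtain rfl : k = 2 * (g - 1) + 1 := by omega
    have h5 := closed g
    have h6 : 2 * g = 2 * (g - 1) + 1 + 1 := by omega
    rw [h6] at h5
    exact h5

/-- two automorphisms differing by an inner one have the same class -/
theorem class_conj {φ ψ : orientedAut g} (c : SurfaceGroup g)
    (h : (φ : MulAut (SurfaceGroup g)) = MulAut.conj c * ψ) : classOf g φ = classOf g ψ := by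
  apply QuotientGroup.eq.2
  rw [innerAut, Subgroup.mem_subgroupOf]
  refine ⟨(ψ : MulAut (SurfaceGroup g))⁻¹ c⁻¹, ?_⟩
  apply MulEquiv.ext
  intro x
  rw [MulAut.conj_apply, Subgroup.coe_mul, InvMemClass.coe_inv, h]
  rw [mul_inv_rev, MulAut.mul_apply, MulAut.mul_apply]
  have h1 : (MulAut.conj c)⁻¹ ((ψ : MulAut (SurfaceGroup g)) x) =
      c⁻¹ * (ψ : MulAut (SurfaceGroup g)) x * c := by
    rw [MulAut.conj_inv_apply]
  rw [h1, map_mul, map_mul, MulAut.inv_apply_self, ← map_inv, inv_inv]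

theorem hyp_mul_self : hyp g * hyp g = 1 := by
  show classOf g (⟨iota g, iota_pres⟩ * ⟨iota g, iota_pres⟩) = classOf g 1
  congr 1
  apply Subtype.ext
  apply MulEquiv.ext
  intro x
  exact iota_iota x

theorem hyp_tt {j : ℕ} (hj : j < 2 * g) : hyp g * tt g j = tt g j * hyp g := by
  rcases Nat.eq_zero_or_pos j with rfl | h1
  · have hg : 0 < g := by omega
    rw [tt_zero' hg, AA_lt hg]
    have h2 : classOf g (⟨iota g, iota_pres⟩ * ⟨tw g 0, tw_pres ⟨0, hg⟩⟩ * ⟨iota g, iota_pres⟩) =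
        classOf g ⟨tw g 0, tw_pres ⟨0, hg⟩⟩ := class_conj (YY g 0) (iota_tw_zero hg)
    have h3 : hyp g * classOf g ⟨tw g 0, tw_pres ⟨0, hg⟩⟩ * hyp g =
        classOf g ⟨tw g 0, tw_pres ⟨0, hg⟩⟩ := h2
    calc hyp g * classOf g ⟨tw g 0, tw_pres ⟨0, hg⟩⟩
        = hyp g * classOf g ⟨tw g 0, tw_pres ⟨0, hg⟩⟩ * (hyp g * hyp g) := by
          rw [hyp_mul_self, mul_one]
      _ = _ := by rw [← mul_assoc, h3]
  · rw [tt_lt hj]
    show classOf g (⟨iota g, iota_pres⟩ * ⟨sv ⟨j, hj⟩, sv_pres _⟩) =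
      classOf g (⟨sv ⟨j, hj⟩, sv_pres _⟩ * ⟨iota g, iota_pres⟩)
    congr 1
    apply Subtype.ext
    exact iota_sv hj h1

theorem hyp_last (hg : 0 < g) : hyp g * AA g (g - 1) = AA g (g - 1) * hyp g := by
  have hl : g - 1 < g := by omega
  rw [AA_lt hl]
  have h3 : hyp g * classOf g ⟨tw g (g - 1), tw_pres ⟨g - 1, hl⟩⟩ * hyp g =
      classOf g ⟨tw g (g - 1), tw_pres ⟨g - 1, hl⟩⟩ := by
    show classOf g (⟨iota g, iota_pres⟩ * ⟨tw g (g - 1), tw_pres ⟨g - 1, hl⟩⟩ *
      ⟨iota g, iota_pres⟩) = _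
    congr 1
    apply Subtype.ext
    exact iota_tw_last hg
  calc hyp g * classOf g ⟨tw g (g - 1), tw_pres ⟨g - 1, hl⟩⟩
      = hyp g * classOf g ⟨tw g (g - 1), tw_pres ⟨g - 1, hl⟩⟩ * (hyp g * hyp g) := by
        rw [hyp_mul_self, mul_one]
    _ = _ := by rw [← mul_assoc, h3]

end

end Pool.Agent.E8helper34.MC
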