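import Pool.Agent.E8helper34.MC.Tw

set_option autoImplicit false

/-! Windows of three handles. -/

namespace Pool.Agent.E8helper34.MC

open Pool.Agent.H29R2.MG Pool.Agent.TH35.MG Pool.Agent.R352.MG Pool.Agent.R665.MGR

/-- words in the letters of the window -/
abbrev W6 : Type := List (Fin 6 × Bool)

/-- substitution followed by free reduction -/
def wsub6 (f : Fin 6 → W6) (L : W6) : W6 :=
  FreeGroup.reduce (L.flatMap (fun x => if x.2 then f x.1 else FreeGroup.invRev (f x.1)))

/-- composition -/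
def cmp (D E : Fin 6 → W6) : Fin 6 → W6 := fun i => wsub6 D (E i)

section
variable (g p : ℕ)

/-- the values of the letters -/
def sg6 (h : p + 2 < g) : Fin 6 → FreeGroup (Fin g ⊕ Fin g) :=
  ![fa ⟨p, by omega⟩, fb ⟨p, by omega⟩, fa ⟨p + 1, by omega⟩, fb ⟨p + 1, by omega⟩,
    fa ⟨p + 2, h⟩, fb ⟨p + 2, h⟩]

/-- the value of a word -/
def ev (h : p + 2 < g) (L : W6) : FreeGroup (Fin g ⊕ Fin g) :=
  FreeGroup.lift (sg6 g p h) (FreeGroup.mk L)

/-- the endomorphism with given data -/
def wx (h : p + 2 < g) (D : Fin 6 → W6) :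
    FreeGroup (Fin g ⊕ Fin g) →* FreeGroup (Fin g ⊕ Fin g) :=
  FreeGroup.lift (Sum.elim
    (fun m => if (m : ℕ) = p then ev g p h (D 0) else if (m : ℕ) = p + 1 then ev g p h (D 2)
      else if (m : ℕ) = p + 2 then ev g p h (D 4) else fa m)
    (fun m => if (m : ℕ) = p then ev g p h (D 1) else if (m : ℕ) = p + 1 then ev g p h (D 3)
      else if (m : ℕ) = p + 2 then ev g p h (D 5) else fb m))

variable {g p} {h : p + 2 < g}

theorem wx_fa (D : Fin 6 → W6) (m : Fin g) : wx g p h D (fa m) =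
    if (m : ℕ) = p then ev g p h (D 0) else if (m : ℕ) = p + 1 then ev g p h (D 2)
      else if (m : ℕ) = p + 2 then ev g p h (D 4) else fa m := by
  conv_lhs => rw [fa]
  unfold wx
  rw [FreeGroup.lift_apply_of]
  rfl

theorem wx_fb (D : Fin 6 → W6) (m : Fin g) : wx g p h D (fb m) =
    if (m : ℕ) = p then ev g p h (D 1) else if (m : ℕ) = p + 1 then ev g p h (D 3)
      else if (m : ℕ) = p + 2 then ev g p h (D 5) else fb m := by
  conv_lhs => rw [fb]
  unfold wx
  rw [FreeGroup.lift_apply_of]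
  rfl

theorem ev_append (L L' : W6) : ev g p h (L ++ L') = ev g p h L * ev g p h L' := by
  simp only [ev]
  rw [← FreeGroup.mul_mk, map_mul]

theorem ev_nil : ev g p h [] = 1 := by
  simp only [ev]
  rw [← FreeGroup.one_eq_mk, map_one]

theorem ev_t (k : Fin 6) (L : W6) : ev g p h ((k, true) :: L) = sg6 g p h k * ev g p h L := by
  unfold ev
  rw [FreeGroup.lift_mk, FreeGroup.lift_mk]; rfl

theorem ev_f (k : Fin 6) (L : W6) :
    ev g p h ((k, false) :: L) = (sg6 g p h k)⁻¹ * ev g p h L := by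
  unfold ev
  rw [FreeGroup.lift_mk, FreeGroup.lift_mk]; rfl

theorem ev_reduce (L : W6) : ev g p h (FreeGroup.reduce L) = ev g p h L := by
  simp only [ev]
  rw [FreeGroup.reduce.self]

theorem ev_invRev (L : W6) : ev g p h (FreeGroup.invRev L) = (ev g p h L)⁻¹ := by
  simp only [ev]
  rw [← FreeGroup.inv_mk, map_inv]

theorem g0 : sg6 g p h 0 = fa ⟨p, by omega⟩ := rfl
theorem g1 : sg6 g p h 1 = fb ⟨p, by omega⟩ := rfl
theorem g2 : sg6 g p h 2 = fa ⟨p + 1, by omega⟩ := rfl
theorem g3 : sg6 g p h 3 = fb ⟨p + 1, by omega⟩ := rfl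
theorem g4 : sg6 g p h 4 = fa ⟨p + 2, h⟩ := rfl
theorem g5 : sg6 g p h 5 = fb ⟨p + 2, h⟩ := rfl

theorem wx_sg (D : Fin 6 → W6) (i : Fin 6) : wx g p h D (sg6 g p h i) = ev g p h (D i) := by
  fin_cases i
  · show wx g p h D (fa ⟨p, by omega⟩) = _
    rw [wx_fa, if_pos rfl]; rfl
  · show wx g p h D (fb ⟨p, by omega⟩) = _
    rw [wx_fb, if_pos rfl]; rfl
  · show wx g p h D (fa ⟨p + 1, by omega⟩) = _
    rw [wx_fa, if_neg (by simp), if_pos rfl]; rfl
  · show wx g p h D (fb ⟨p + 1, by omega⟩) = _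
    rw [wx_fb, if_neg (by simp), if_pos rfl]; rfl
  · show wx g p h D (fa ⟨p + 2, by omega⟩) = _
    rw [wx_fa, if_neg (by simp), if_neg (by simp), if_pos rfl]; rfl
  · show wx g p h D (fb ⟨p + 2, by omega⟩) = _
    rw [wx_fb, if_neg (by simp), if_neg (by simp), if_pos rfl]; rfl

theorem wx_ev (D : Fin 6 → W6) (L : W6) : wx g p h D (ev g p h L) = ev g p h (wsub6 D L) := by
  rw [wsub6, ev_reduce]
  induction L with
  | nil => rw [ev_nil, map_one, List.flatMap_nil, ev_nil]
  | cons x L ih =>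
    rw [List.flatMap_cons, ev_append, ← ih]
    obtain ⟨i, b⟩ := x
    cases b
    · rw [ev_f, map_mul, map_inv, wx_sg, if_neg (by simp), ev_invRev]
    · rw [ev_t, map_mul, wx_sg, if_pos rfl]

theorem wx_comp (D E : Fin 6 → W6) (x : FreeGroup (Fin g ⊕ Fin g)) :
    wx g p h D (wx g p h E x) = wx g p h (cmp D E) x := by
  have e : (wx g p h D).comp (wx g p h E) = wx g p h (cmp D E) := by
    apply free_ext
    · intro m
      rw [MonoidHom.comp_apply, wx_fa, wx_fa]
      split_ifs with h1 h2 h3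
      · exact wx_ev _ _
      · exact wx_ev _ _
      · exact wx_ev _ _
      · rw [wx_fa, if_neg h1, if_neg h2, if_neg h3]
    · intro m
      rw [MonoidHom.comp_apply, wx_fb, wx_fb]
      split_ifs with h1 h2 h3
      · exact wx_ev _ _
      · exact wx_ev _ _
      · exact wx_ev _ _
      · rw [wx_fb, if_neg h1, if_neg h2, if_neg h3]
  exact DFunLike.congr_fun e x

/-- the automorphism `φ` is given by the data `D` -/
def RW (g p : ℕ) (h : p + 2 < g) (φ : MulAut (SurfaceGroup g)) (D : Fin 6 → W6) : Prop :=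
  ∀ x, φ (mk g x) = mk g (wx g p h D x)

theorem RW.mul {φ ψ : MulAut (SurfaceGroup g)} {D E : Fin 6 → W6} (h1 : RW g p h φ D)
    (h2 : RW g p h ψ E) : RW g p h (φ * ψ) (cmp D E) := by
  intro x
  rw [MulAut.mul_apply, h2, h1, wx_comp]

theorem RW.eq {φ ψ : MulAut (SurfaceGroup g)} {D E : Fin 6 → W6} (h1 : RW g p h φ D)
    (h2 : RW g p h ψ E) (e : D = E) : φ = ψ := by
  apply MulEquiv.ext
  intro y
  obtain ⟨x, rfl⟩ := mk_surjective g y
  rw [h1, h2, e]

/-- the three twists `A` -/
def dA : Fin 3 → Fin 6 → W6 :=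
  ![![[(0, true)], [(1, true), (0, true)], [(2, true)], [(3, true)], [(4, true)], [(5, true)]],
    ![[(0, true)], [(1, true)], [(2, true)], [(3, true), (2, true)], [(4, true)], [(5, true)]],
    ![[(0, true)], [(1, true)], [(2, true)], [(3, true)], [(4, true)], [(5, true), (4, true)]]]

/-- the three inverse twists `A` -/
def dAi : Fin 3 → Fin 6 → W6 :=
  ![![[(0, true)], [(1, true), (0, false)], [(2, true)], [(3, true)], [(4, true)], [(5, true)]],
    ![[(0, true)], [(1, true)], [(2, true)], [(3, true), (2, false)], [(4, true)], [(5, true)]],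
    ![[(0, true)], [(1, true)], [(2, true)], [(3, true)], [(4, true)], [(5, true), (4, false)]]]

/-- the three twists `B` -/
def dB : Fin 3 → Fin 6 → W6 :=
  ![![[(0, true), (1, false)], [(1, true)], [(2, true)], [(3, true)], [(4, true)], [(5, true)]],
    ![[(0, true)], [(1, true)], [(2, true), (3, false)], [(3, true)], [(4, true)], [(5, true)]],
    ![[(0, true)], [(1, true)], [(2, true)], [(3, true)], [(4, true), (5, false)], [(5, true)]]]

/-- the two twists `C` -/
def dC : Fin 2 → Fin 6 → W6 :=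
  ![![[(0, true)], [(2, false), (1, true), (0, true)],
      [(2, false), (1, true), (0, true), (1, false), (2, true), (1, true), (0, false), (1, false),
        (2, true)],
      [(3, true), (1, true), (0, false), (1, false), (2, true)], [(4, true)], [(5, true)]],
    ![[(0, true)], [(1, true)], [(2, true)], [(4, false), (3, true), (2, true)],
      [(4, false), (3, true), (2, true), (3, false), (4, true), (3, true), (2, false), (3, false),
        (4, true)],
      [(5, true), (3, true), (2, false), (3, false), (4, true)]]]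

theorem RW_A (k : Fin 3) : RW g p h (tw g (p + k)) (dA k) := by
  have q0 : p < g := by omega
  have q1 : p + 1 < g := by omega
  intro x
  rw [tw_mk]
  congr 1
  have e : hT g (p + k) = wx g p h (dA k) := by
    apply free_ext
    · intro m
      rw [hT_fa, wx_fa]
      fin_cases k <;>
      · split_ifs with h1 h2 h3
        · obtain rfl : m = ⟨p, q0⟩ := Fin.ext h1
          simp [dA, ev_t, ev_f, ev_nil, g0, g1]
        · obtain rfl : m = ⟨p + 1, q1⟩ := Fin.ext h2
          simp [dA, ev_t, ev_f, ev_nil, g2, g3]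
        · obtain rfl : m = ⟨p + 2, h⟩ := Fin.ext h3
          simp [dA, ev_t, ev_f, ev_nil, g4, g5]
        · rfl
    · intro m
      rw [hT_fb, wx_fb]
      fin_cases k <;>
      · by_cases h1 : (m : ℕ) = p
        · obtain rfl : m = ⟨p, q0⟩ := Fin.ext h1
          simp [dA, ev_t, ev_f, ev_nil, g0, g1]
        · by_cases h2 : (m : ℕ) = p + 1
          · obtain rfl : m = ⟨p + 1, q1⟩ := Fin.ext h2
            simp [dA, ev_t, ev_f, ev_nil, g2, g3]
          · by_cases h3 : (m : ℕ) = p + 2
            · obtain rfl : m = ⟨p + 2, h⟩ := Fin.ext h3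
              simp [dA, ev_t, ev_f, ev_nil, g4, g5]
            · simp [h1, h2, h3]
  rw [e]

theorem RW_Ai (k : Fin 3) : RW g p h (tw g (p + k))⁻¹ (dAi k) := by
  have q0 : p < g := by omega
  have q1 : p + 1 < g := by omega
  intro x
  rw [tw_inv_mk]
  congr 1
  have e : hTi g (p + k) = wx g p h (dAi k) := by
    apply free_ext
    · intro m
      rw [hTi_fa, wx_fa]
      fin_cases k <;>
      · split_ifs with h1 h2 h3
        · obtain rfl : m = ⟨p, q0⟩ := Fin.ext h1
          simp [dAi, ev_t, ev_f, ev_nil, g0, g1]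
        · obtain rfl : m = ⟨p + 1, q1⟩ := Fin.ext h2
          simp [dAi, ev_t, ev_f, ev_nil, g2, g3]
        · obtain rfl : m = ⟨p + 2, h⟩ := Fin.ext h3
          simp [dAi, ev_t, ev_f, ev_nil, g4, g5]
        · rfl
    · intro m
      rw [hTi_fb, wx_fb]
      fin_cases k <;>
      · by_cases h1 : (m : ℕ) = p
        · obtain rfl : m = ⟨p, q0⟩ := Fin.ext h1
          simp [dAi, ev_t, ev_f, ev_nil, g0, g1]
        · by_cases h2 : (m : ℕ) = p + 1
          · obtain rfl : m = ⟨p + 1, q1⟩ := Fin.ext h2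
            simp [dAi, ev_t, ev_f, ev_nil, g2, g3]
          · by_cases h3 : (m : ℕ) = p + 2
            · obtain rfl : m = ⟨p + 2, h⟩ := Fin.ext h3
              simp [dAi, ev_t, ev_f, ev_nil, g4, g5]
            · simp [h1, h2, h3]
  rw [e]

theorem RW_B (k : Fin 3) : RW g p h (sv ⟨2 * (p + k) + 1, by omega⟩) (dB k) := by
  have q0 : p < g := by omega
  have q1 : p + 1 < g := by omega
  intro x
  rw [sv_mk]
  congr 1
  have e : (fv ⟨2 * (p + k) + 1, by omega⟩ : FreeGroup (Fin g ⊕ Fin g) →* _) =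
      wx g p h (dB k) := by
    have e0 : (fv ⟨2 * (p + k) + 1, by omega⟩ : FreeGroup (Fin g ⊕ Fin g) →* _) =
        stepA ⟨p + k, by omega⟩ (fb ⟨p + k, by omega⟩) := by
      unfold fv
      rw [if_neg (by simp)]
      have h2 : (2 * (p + (k : ℕ)) + 1) / 2 = p + k := by omega
      simp only [h2]
    rw [e0]
    apply free_ext
    · intro m
      rw [stepA_fa, wx_fa]
      fin_cases k <;>
      · by_cases h1 : (m : ℕ) = p
        · obtain rfl : m = ⟨p, q0⟩ := Fin.ext h1
          simp [dB, ev_t, ev_f, ev_nil, g0, g1]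
        · by_cases h2 : (m : ℕ) = p + 1
          · obtain rfl : m = ⟨p + 1, q1⟩ := Fin.ext h2
            simp [dB, ev_t, ev_f, ev_nil, g2, g3]
          · by_cases h3 : (m : ℕ) = p + 2
            · obtain rfl : m = ⟨p + 2, h⟩ := Fin.ext h3
              simp [dB, ev_t, ev_f, ev_nil, g4, g5]
            · simp [h1, h2, h3, Fin.ext_iff]
    · intro m
      rw [stepA_fb, wx_fb]
      fin_cases k <;>
      · by_cases h1 : (m : ℕ) = p
        · obtain rfl : m = ⟨p, q0⟩ := Fin.ext h1
          simp [dB, ev_t, ev_f, ev_nil, g0, g1]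
        · by_cases h2 : (m : ℕ) = p + 1
          · obtain rfl : m = ⟨p + 1, q1⟩ := Fin.ext h2
            simp [dB, ev_t, ev_f, ev_nil, g2, g3]
          · by_cases h3 : (m : ℕ) = p + 2
            · obtain rfl : m = ⟨p + 2, h⟩ := Fin.ext h3
              simp [dB, ev_t, ev_f, ev_nil, g4, g5]
            · simp [h1, h2, h3]
  rw [e]

theorem RW_C0 : RW g p h (sv ⟨2 * (p + 1), by omega⟩) (dC 0) := by
  have q0 : p < g := by omega
  have q1 : p + 1 < g := by omega
  intro x
  rw [sv_mk]
  congr 1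
  have e : (fv ⟨2 * (p + 1), by omega⟩ : FreeGroup (Fin g ⊕ Fin g) →* _) =
      wx g p h (dC 0) := by
    rw [fv_even_eq (by omega)]
    have e1 : ee (⟨p + 1, by omega⟩ : Fin g) = fb ⟨p, by omega⟩ * (fa ⟨p, by omega⟩)⁻¹ *
        (fb ⟨p, by omega⟩)⁻¹ * fa ⟨p + 1, by omega⟩ := by
      unfold ee
      rw [dif_pos (by simp)]
      rfl
    apply free_ext
    · intro m
      rw [stepE_fa, wx_fa]
      by_cases h1 : (m : ℕ) = p
      · obtain rfl : m = ⟨p, q0⟩ := Fin.ext h1
        simp [dC, ev_t, ev_f, ev_nil, g0, g1]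
      · by_cases h2 : (m : ℕ) = p + 1
        · obtain rfl : m = ⟨p + 1, q1⟩ := Fin.ext h2
          rw [if_pos rfl, e1]
          simp [dC, ev_t, ev_f, ev_nil, g0, g1, g2, g3]
          group
        · by_cases h3 : (m : ℕ) = p + 2
          · obtain rfl : m = ⟨p + 2, h⟩ := Fin.ext h3
            simp [dC, ev_t, ev_f, ev_nil, g4, g5]
          · simp [h1, h2, h3, Fin.ext_iff]
    · intro m
      rw [stepE_fb, wx_fb]
      by_cases h1 : (m : ℕ) = p
      · obtain rfl : m = ⟨p, q0⟩ := Fin.ext h1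
        rw [if_neg (by simp), if_pos (by simp), e1]
        simp [dC, ev_t, ev_f, ev_nil, g0, g1, g2]
        try group
      · by_cases h2 : (m : ℕ) = p + 1
        · obtain rfl : m = ⟨p + 1, q1⟩ := Fin.ext h2
          rw [if_pos rfl, e1]
          simp [dC, ev_t, ev_f, ev_nil, g0, g1, g2, g3]
          try group
        · by_cases h3 : (m : ℕ) = p + 2
          · obtain rfl : m = ⟨p + 2, h⟩ := Fin.ext h3
            simp [dC, ev_t, ev_f, ev_nil, g4, g5]
          · simp [h1, h2, h3, Fin.ext_iff]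
  rw [e]

theorem RW_C1 : RW g p h (sv ⟨2 * (p + 2), by omega⟩) (dC 1) := by
  have q0 : p < g := by omega
  have q1 : p + 1 < g := by omega
  intro x
  rw [sv_mk]
  congr 1
  have e : (fv ⟨2 * (p + 2), by omega⟩ : FreeGroup (Fin g ⊕ Fin g) →* _) =
      wx g p h (dC 1) := by
    rw [fv_even_eq h]
    have e1 : ee (⟨p + 2, by omega⟩ : Fin g) = fb ⟨p + 1, by omega⟩ *
        (fa ⟨p + 1, by omega⟩)⁻¹ * (fb ⟨p + 1, by omega⟩)⁻¹ * fa ⟨p + 2, by omega⟩ := by
      unfold ee
      rw [dif_pos (by simp)]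
      rfl
    apply free_ext
    · intro m
      rw [stepE_fa, wx_fa]
      by_cases h1 : (m : ℕ) = p
      · obtain rfl : m = ⟨p, q0⟩ := Fin.ext h1
        simp [dC, ev_t, ev_f, ev_nil, g0, g1]
      · by_cases h2 : (m : ℕ) = p + 1
        · obtain rfl : m = ⟨p + 1, q1⟩ := Fin.ext h2
          simp [dC, ev_t, ev_f, ev_nil, g0, g1, g2, g3]
        · by_cases h3 : (m : ℕ) = p + 2
          · obtain rfl : m = ⟨p + 2, h⟩ := Fin.ext h3
            rw [if_pos rfl, e1]
            simp [dC, ev_t, ev_f, ev_nil, g2, g3, g4, g5]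
            group
          · simp [h1, h2, h3, Fin.ext_iff]
    · intro m
      rw [stepE_fb, wx_fb]
      by_cases h1 : (m : ℕ) = p
      · obtain rfl : m = ⟨p, q0⟩ := Fin.ext h1
        simp [dC, ev_t, ev_f, ev_nil, g0, g1, g2]
      · by_cases h2 : (m : ℕ) = p + 1
        · obtain rfl : m = ⟨p + 1, q1⟩ := Fin.ext h2
          rw [if_neg (by simp), if_pos (by simp), e1]
          simp [dC, ev_t, ev_f, ev_nil, g2, g3, g4]
          try group
        · by_cases h3 : (m : ℕ) = p + 2
          · obtain rfl : m = ⟨p + 2, h⟩ := Fin.ext h3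
            rw [if_pos rfl, e1]
            simp [dC, ev_t, ev_f, ev_nil, g2, g3, g4, g5]
            try group
          · simp [h1, h2, h3, Fin.ext_iff]
  rw [e]

end

end Pool.Agent.E8helper34.MC
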