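import Pool.Agent.H29R2.MG.Twist

set_option autoImplicit false

/-! Coordinates `Y_k` on the surface group in which the chain of Dehn twists is an Artin action and
the hyperelliptic involution is `Y_k ↦ Y_k⁻¹`. -/

namespace Pool.Agent.E8helper34.MC

open Pool.Agent.H29R2.MG

section seq
variable {H : Type*} [Group H]

/-- `y_{k-1} ⋯ y_0` -/
def QQ (y : ℕ → H) : ℕ → H
  | 0 => 1
  | k + 1 => y k * QQ y k

/-- `y_0 ⋯ y_{k-1}` -/
def PQ (y : ℕ → H) : ℕ → H
  | 0 => 1
  | k + 1 => PQ y k * y k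

theorem map_QQ {H' : Type*} [Group H'] (φ : H →* H') (y : ℕ → H) (k : ℕ) :
    φ (QQ y k) = QQ (fun i => φ (y i)) k := by
  induction k with
  | zero => exact map_one φ
  | succ k ih =>
    show φ (y k * QQ y k) = _ * _
    rw [map_mul, ih]

theorem map_PQ {H' : Type*} [Group H'] (φ : H →* H') (y : ℕ → H) (k : ℕ) :
    φ (PQ y k) = PQ (fun i => φ (y i)) k := by
  induction k with
  | zero => exact map_one φ
  | succ k ih =>
    show φ (PQ y k * y k) = _ * _
    rw [map_mul, ih]

theorem QQ_congr {y y' : ℕ → H} {k : ℕ} (h : ∀ i < k, y i = y' i) : QQ y k = QQ y' k := by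
  induction k with
  | zero => rfl
  | succ k ih =>
    show y k * QQ y k = y' k * QQ y' k
    rw [h k (by omega), ih (fun i hi => h i (by omega))]

theorem PQ_congr {y y' : ℕ → H} {k : ℕ} (h : ∀ i < k, y i = y' i) : PQ y k = PQ y' k := by
  induction k with
  | zero => rfl
  | succ k ih =>
    show PQ y k * y k = PQ y' k * y' k
    rw [h k (by omega), ih (fun i hi => h i (by omega))]

theorem QQ_inv (y : ℕ → H) (k : ℕ) : QQ (fun i => (y i)⁻¹) k = (PQ y k)⁻¹ := by
  induction k with
  | zero => exact inv_one.symm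
  | succ k ih =>
    show (y k)⁻¹ * QQ (fun i => (y i)⁻¹) k = (PQ y k * y k)⁻¹
    rw [ih, mul_inv_rev]

theorem PQ_inv (y : ℕ → H) (k : ℕ) : PQ (fun i => (y i)⁻¹) k = (QQ y k)⁻¹ := by
  induction k with
  | zero => exact inv_one.symm
  | succ k ih =>
    show PQ (fun i => (y i)⁻¹) k * (y k)⁻¹ = (y k * QQ y k)⁻¹
    rw [ih, mul_inv_rev]

/-- the homomorphism of the free group with `a_m ↦ y_{2m} ⋯ y_0 …` -/
def fhom (g : ℕ) (y : ℕ → H) : FreeGroup (Fin g ⊕ Fin g) →* H :=
  FreeGroup.lift (Sum.elim (fun m => QQ y (2 * m) * y (2 * m))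
    (fun m => y (2 * m + 1) * y (2 * m)))

theorem fhom_fa (g : ℕ) (y : ℕ → H) (m : Fin g) :
    fhom g y (fa m) = QQ y (2 * m) * y (2 * m) := by
  unfold fhom fa
  rw [FreeGroup.lift_apply_of]
  rfl

theorem fhom_fb (g : ℕ) (y : ℕ → H) (m : Fin g) :
    fhom g y (fb m) = y (2 * m + 1) * y (2 * m) := by
  unfold fhom fb
  rw [FreeGroup.lift_apply_of]
  rfl

theorem relator_aux (y : ℕ → H) (m : ℕ) : ∀ (f : Fin m → H),
    (∀ i : Fin m, f i = (QQ y (2 * i) * y (2 * i)) * (y (2 * i + 1) * y (2 * i)) *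
      (QQ y (2 * i) * y (2 * i))⁻¹ * (y (2 * i + 1) * y (2 * i))⁻¹) →
    (List.ofFn f).prod = PQ y (2 * m) * (QQ y (2 * m))⁻¹ := by
  induction m with
  | zero => intro f _; simp [PQ, QQ]
  | succ m ih =>
    intro f hf
    rw [List.ofFn_succ_last, List.prod_append, List.prod_singleton,
      ih (fun i => f (Fin.castSucc i)) (fun i => by rw [hf]; rfl), hf]
    have h1 : 2 * (m + 1) = 2 * m + 1 + 1 := by ring
    have h2 : PQ y (2 * m + 1 + 1) = PQ y (2 * m) * y (2 * m) * y (2 * m + 1) := rfl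
    have h3 : QQ y (2 * m + 1 + 1) = y (2 * m + 1) * (y (2 * m) * QQ y (2 * m)) := rfl
    rw [h1, h2, h3]
    simp only [Fin.val_last]
    generalize PQ y (2 * m) = p
    generalize QQ y (2 * m) = q
    generalize y (2 * m) = u
    generalize y (2 * m + 1) = v
    group

theorem fhom_relator (g : ℕ) (y : ℕ → H) :
    fhom g y (surfaceRelator g) = PQ y (2 * g) * (QQ y (2 * g))⁻¹ := by
  unfold surfaceRelator
  rw [map_list_prod, List.map_ofFn]
  apply relator_aux
  intro i
  simp only [Function.comp_apply, map_mul, map_inv]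
  have h1 := fhom_fa g y i
  have h2 := fhom_fb g y i
  unfold fa at h1
  unfold fb at h2
  rw [h1, h2]

/-- the homomorphism of the surface group with `Y_k ↦ y_k` -/
def homY (g : ℕ) (y : ℕ → H) (h : PQ y (2 * g) = QQ y (2 * g)) : SurfaceGroup g →* H :=
  outHom (fhom g y) (by rw [fhom_relator, h, mul_inv_cancel])

end seq

section
variable {g : ℕ}

/-- the element `a_m` of the surface group -/
def sa (g m : ℕ) : SurfaceGroup g := if h : m < g then mk g (fa ⟨m, h⟩) else 1

/-- the element `b_m` of the surface group -/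
def sb (g m : ℕ) : SurfaceGroup g := if h : m < g then mk g (fb ⟨m, h⟩) else 1

theorem sa_fin (m : Fin g) : sa g m = mk g (fa m) := dif_pos m.2

theorem sb_fin (m : Fin g) : sb g m = mk g (fb m) := dif_pos m.2

/-- the element `C_m = b_{m-1} ⋯ b_0` -/
def SC (g : ℕ) : ℕ → SurfaceGroup g
  | 0 => 1
  | m + 1 => sb g m * SC g m

/-- the coordinates -/
def YY (g k : ℕ) : SurfaceGroup g :=
  if k % 2 = 0 then (SC g (k / 2))⁻¹ * sa g (k / 2)
  else sb g (k / 2) * (sa g (k / 2))⁻¹ * SC g (k / 2)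

theorem YY_even (m : ℕ) : YY g (2 * m) = (SC g m)⁻¹ * sa g m := by
  have h1 : (2 * m) % 2 = 0 := by omega
  have h2 : (2 * m) / 2 = m := by omega
  unfold YY
  rw [if_pos h1, h2]

theorem YY_odd (m : ℕ) : YY g (2 * m + 1) = sb g m * (sa g m)⁻¹ * SC g m := by
  have h1 : ¬ (2 * m + 1) % 2 = 0 := by omega
  have h2 : (2 * m + 1) / 2 = m := by omega
  unfold YY
  rw [if_neg h1, h2]

theorem SC_eq (m : ℕ) : SC g m = QQ (YY g) (2 * m) := by
  induction m with
  | zero => rfl
  | succ m ih =>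
    have h3 : QQ (YY g) (2 * (m + 1)) =
      YY g (2 * m + 1) * (YY g (2 * m) * QQ (YY g) (2 * m)) := rfl
    rw [h3, ← ih, YY_even, YY_odd]
    show sb g m * SC g m = _
    group

theorem sa_eq (m : ℕ) : sa g m = QQ (YY g) (2 * m) * YY g (2 * m) := by
  rw [← SC_eq, YY_even]
  group

theorem sb_eq (m : ℕ) : sb g m = YY g (2 * m + 1) * YY g (2 * m) := by
  rw [YY_even, YY_odd]
  group

theorem ext_Y {H : Type*} [Group H] {φ ψ : SurfaceGroup g →* H}
    (h : ∀ k < 2 * g, φ (YY g k) = ψ (YY g k)) : φ = ψ := by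
  apply surface_ext
  rintro (m | m)
  · show φ (mk g (fa m)) = ψ (mk g (fa m))
    rw [← sa_fin, sa_eq, map_mul, map_mul, map_QQ, map_QQ, h _ (by omega),
      QQ_congr (fun i hi => h i (by omega))]
  · show φ (mk g (fb m)) = ψ (mk g (fb m))
    rw [← sb_fin, sb_eq, map_mul, map_mul, h _ (by omega), h _ (by omega)]

theorem mk_fhom (x : FreeGroup (Fin g ⊕ Fin g)) : fhom g (YY g) x = mk g x := by
  have h : fhom g (YY g) = mk g := by
    apply FreeGroup.ext_hom
    rintro (m | m)
    · show fhom g (YY g) (fa m) = mk g (fa m)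
      rw [fhom_fa, ← sa_eq, sa_fin]
    · show fhom g (YY g) (fb m) = mk g (fb m)
      rw [fhom_fb, ← sb_eq, sb_fin]
  rw [h]

theorem closed (g : ℕ) : PQ (YY g) (2 * g) = QQ (YY g) (2 * g) := by
  have h1 := mk_fhom (surfaceRelator g)
  rw [fhom_relator, mk_relator, mul_inv_eq_one] at h1
  exact h1

section homY
variable {H : Type*} [Group H] {y : ℕ → H} (h : PQ y (2 * g) = QQ y (2 * g))

theorem homY_sa {m : ℕ} (hm : m < g) : homY g y h (sa g m) = QQ y (2 * m) * y (2 * m) := by
  have e : sa g m = mk g (fa ⟨m, hm⟩) := dif_pos hm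
  rw [e]
  show outHom _ _ (mk g (fa _)) = _
  rw [outHom_mk, fhom_fa]

theorem homY_sb {m : ℕ} (hm : m < g) : homY g y h (sb g m) = y (2 * m + 1) * y (2 * m) := by
  have e : sb g m = mk g (fb ⟨m, hm⟩) := dif_pos hm
  rw [e]
  show outHom _ _ (mk g (fb _)) = _
  rw [outHom_mk, fhom_fb]

theorem homY_SC {m : ℕ} (hm : m ≤ g) : homY g y h (SC g m) = QQ y (2 * m) := by
  induction m with
  | zero => exact map_one _
  | succ m ih =>
    have h3 : QQ y (2 * (m + 1)) = y (2 * m + 1) * (y (2 * m) * QQ y (2 * m)) := rfl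
    show homY g y h (sb g m * SC g m) = _
    rw [map_mul, ih (by omega), homY_sb h (by omega), h3, mul_assoc]

theorem homY_YY {k : ℕ} (hk : k < 2 * g) : homY g y h (YY g k) = y k := by
  rcases Nat.even_or_odd' k with ⟨m, rfl | rfl⟩
  · rw [YY_even, map_mul, map_inv, homY_SC h (by omega), homY_sa h (by omega)]
    group
  · rw [YY_odd, map_mul, map_mul, map_inv, homY_SC h (by omega), homY_sa h (by omega),
      homY_sb h (by omega)]
    group

end homY

/-! ### The chain of twists -/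

theorem sv_sa_odd {i : ℕ} (hi : i < g) (m : ℕ) :
    sv ⟨2 * i + 1, by omega⟩ (sa g m) = if m = i then sa g m * (sb g m)⁻¹ else sa g m := by
  by_cases hm : m < g
  · have e : (fv ⟨2 * i + 1, by omega⟩ : FreeGroup (Fin g ⊕ Fin g) →* _) =
        stepA ⟨i, hi⟩ (fb ⟨i, hi⟩) := by
      unfold fv
      rw [if_neg (by simp)]
      have h2 : (2 * i + 1) / 2 = i := by omega
      simp only [h2]
    have e1 : sa g m = mk g (fa ⟨m, hm⟩) := dif_pos hm
    have e2 : sb g m = mk g (fb ⟨m, hm⟩) := dif_pos hm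
    rw [e1, sv_mk, e, stepA_fa]
    by_cases h : m = i
    · subst h
      rw [if_pos rfl, if_pos rfl, map_mul, map_inv, e2]
    · rw [if_neg (fun e => h (Fin.ext_iff.1 e)), if_neg h]
  · have e1 : sa g m = 1 := dif_neg hm
    rw [e1, map_one, if_neg (by omega)]

theorem sv_sb_odd {i : ℕ} (hi : i < g) (m : ℕ) :
    sv ⟨2 * i + 1, by omega⟩ (sb g m) = sb g m := by
  by_cases hm : m < g
  · have e : (fv ⟨2 * i + 1, by omega⟩ : FreeGroup (Fin g ⊕ Fin g) →* _) =
        stepA ⟨i, hi⟩ (fb ⟨i, hi⟩) := by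
      unfold fv
      rw [if_neg (by simp)]
      have h2 : (2 * i + 1) / 2 = i := by omega
      simp only [h2]
    have e2 : sb g m = mk g (fb ⟨m, hm⟩) := dif_pos hm
    rw [e2, sv_mk, e, stepA_fb]
  · have e1 : sb g m = 1 := dif_neg hm
    rw [e1, map_one]

theorem sv_SC_odd {i : ℕ} (hi : i < g) (m : ℕ) :
    sv ⟨2 * i + 1, by omega⟩ (SC g m) = SC g m := by
  induction m with
  | zero => exact map_one _
  | succ m ih =>
    show sv _ (sb g m * SC g m) = sb g m * SC g m
    rw [map_mul, ih, sv_sb_odd hi]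

theorem fv_even_eq {i : ℕ} (hi : i < g) :
    (fv ⟨2 * i, by omega⟩ : FreeGroup (Fin g ⊕ Fin g) →* _) = stepE ⟨i, hi⟩ (ee ⟨i, hi⟩) := by
  unfold fv
  rw [if_pos (by simp)]
  have h2 : (2 * i) / 2 = i := by omega
  simp only [h2]

/-- the element `e_i` of the surface group -/
def se (g i : ℕ) : SurfaceGroup g := if 0 < i then sb g (i - 1) * (sa g (i - 1))⁻¹ *
    (sb g (i - 1))⁻¹ * sa g i else sa g i

theorem se_fin {i : ℕ} (hi : i < g) : mk g (ee ⟨i, hi⟩) = se g i := by
  unfold ee se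
  have e1 : sa g i = mk g (fa ⟨i, hi⟩) := dif_pos hi
  by_cases h : 0 < i
  · rw [dif_pos h, if_pos h]
    have e2 : sa g (i - 1) = mk g (fa ⟨i - 1, by omega⟩) := dif_pos (by omega)
    have e3 : sb g (i - 1) = mk g (fb ⟨i - 1, by omega⟩) := dif_pos (by omega)
    rw [map_mul, map_mul, map_mul, map_inv, map_inv, e1, e2, e3]
  · rw [dif_neg h, if_neg h, one_mul, e1]

theorem sv_sa_even {i : ℕ} (hi : i < g) (m : ℕ) :
    sv ⟨2 * i, by omega⟩ (sa g m) =
      if m = i then (se g i)⁻¹ * sa g m * se g i else sa g m := by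
  by_cases hm : m < g
  · have e1 : sa g m = mk g (fa ⟨m, hm⟩) := dif_pos hm
    rw [e1, sv_mk, fv_even_eq hi, stepE_fa]
    by_cases h : m = i
    · subst h
      rw [if_pos rfl, if_pos rfl, map_mul, map_mul, map_inv, se_fin]
    · rw [if_neg (fun e => h (Fin.ext_iff.1 e)), if_neg h]
  · have e1 : sa g m = 1 := dif_neg hm
    rw [e1, map_one, if_neg (by omega)]

theorem sv_sb_even {i : ℕ} (hi : i < g) (m : ℕ) :
    sv ⟨2 * i, by omega⟩ (sb g m) =
      if m = i then sb g m * se g i else if m + 1 = i then (se g i)⁻¹ * sb g m else sb g m := by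
  by_cases hm : m < g
  · have e1 : sb g m = mk g (fb ⟨m, hm⟩) := dif_pos hm
    rw [e1, sv_mk, fv_even_eq hi, stepE_fb]
    by_cases h : m = i
    · subst h
      rw [if_pos rfl, if_pos rfl, map_mul, se_fin]
    · rw [if_neg (fun e => h (Fin.ext_iff.1 e)), if_neg h]
      by_cases h2 : m + 1 = i
      · rw [if_pos h2, if_pos h2, map_mul, map_inv, se_fin]
      · rw [if_neg h2, if_neg h2]
  · have e1 : sb g m = 1 := dif_neg hm
    rw [e1, map_one, if_neg (by omega), if_neg (by omega)]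

theorem sv_SC_even {i : ℕ} (hi : i < g) (h0 : 0 < i) (m : ℕ) :
    sv ⟨2 * i, by omega⟩ (SC g m) = if m = i then (se g i)⁻¹ * SC g m else SC g m := by
  induction m with
  | zero =>
    rw [if_neg (by omega)]
    exact map_one _
  | succ m ih =>
    show sv _ (sb g m * SC g m) = if _ then _ * (sb g m * SC g m) else sb g m * SC g m
    rw [map_mul, ih, sv_sb_even hi]
    rcases lt_trichotomy m i with h | h | h
    · rw [if_neg (by omega : ¬ m = i), if_neg (by omega : ¬ m = i)]
      split_ifs with h2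
      · group
      · rfl
    · rw [if_pos h, if_pos h, if_neg (by omega)]
      group
    · rw [if_neg (by omega : ¬ m = i), if_neg (by omega : ¬ m = i), if_neg (by omega),
        if_neg (by omega)]

theorem se_eq {i : ℕ} (h0 : 0 < i) : se g i = YY g (2 * i - 1) * YY g (2 * i) := by
  obtain ⟨k, rfl⟩ : ∃ k, i = k + 1 := ⟨i - 1, by omega⟩
  unfold se
  rw [if_pos h0, show k + 1 - 1 = k by omega, show 2 * (k + 1) - 1 = 2 * k + 1 by omega,
    YY_odd, YY_even]
  show _ = _ * ((sb g k * SC g k)⁻¹ * _)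
  group

theorem sv_YY {j : ℕ} (hj : j < 2 * g) (h1 : 0 < j) (k : ℕ) :
    sv ⟨j, hj⟩ (YY g k) = if k + 1 = j then (YY g j)⁻¹ else
      if k = j then YY g j * YY g (j - 1) * YY g j else YY g k := by
  rcases Nat.even_or_odd' j with ⟨i, rfl | rfl⟩
  · have h0 : 0 < i := by omega
    have hi : i < g := by omega
    rcases Nat.even_or_odd' k with ⟨m, rfl | rfl⟩
    · rw [if_neg (by omega), YY_even, map_mul, map_inv, sv_SC_even hi h0, sv_sa_even hi]
      by_cases hm : m = i
      · subst hm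
        rw [if_pos rfl, if_pos rfl, if_pos rfl, se_eq h0, YY_even]
        group
      · rw [if_neg hm, if_neg hm, if_neg (by omega)]
    · rw [if_neg (by omega : ¬ 2 * m + 1 = 2 * i), YY_odd, map_mul, map_mul, map_inv,
        sv_SC_even hi h0, sv_sa_even hi, sv_sb_even hi]
      by_cases hm : m = i
      · subst hm
        rw [if_pos rfl, if_pos rfl, if_pos rfl, if_neg (by omega)]
        group
      · rw [if_neg hm, if_neg hm, if_neg hm]
        by_cases h2 : m + 1 = i
        · rw [if_pos h2, if_pos (by omega), se_eq h0]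
          have h3 : 2 * i - 1 = 2 * m + 1 := by omega
          rw [h3, YY_odd]
          group
        · rw [if_neg h2, if_neg (by omega)]
  · have hi : i < g := by omega
    rcases Nat.even_or_odd' k with ⟨m, rfl | rfl⟩
    · rw [YY_even, map_mul, map_inv, sv_SC_odd hi, sv_sa_odd hi]
      by_cases hm : m = i
      · subst hm
        rw [if_pos rfl, if_pos rfl, YY_odd]
        group
      · rw [if_neg hm, if_neg (by omega), if_neg (by omega)]
    · rw [if_neg (by omega : ¬ 2 * m + 1 + 1 = 2 * i + 1), YY_odd, map_mul, map_mul, map_inv,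
        sv_SC_odd hi, sv_sa_odd hi, sv_sb_odd hi]
      by_cases hm : m = i
      · subst hm
        rw [if_pos rfl, if_pos rfl, YY_odd, show 2 * m + 1 - 1 = 2 * m by omega, YY_even]
        group
      · rw [if_neg hm, if_neg (by omega)]

end

end Pool.Agent.E8helper34.MC
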